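import Pool.Agent.Work.MP_3d4872_al.General

/-!
# MP_3d4872_al: compatible brackets of small rank, the structure theorem
-/

set_option autoImplicit false
set_option linter.unusedSectionVars false

namespace Pool.Agent.Work.MP_3d4872_al.Sr

open Pool.Agent.Work.MP_3d4872_al

section General

variable {L : Type*} [LieRing L] [LieAlgebra ℂ L]

/-- The 2-cochain `[RX, RY] + ([R²X, Y] - R[RX, Y]) + ([X, R²Y] - R[X, RY])`. -/
def wc (R : L →ₗ[ℂ] L) (X Y : L) : L :=
  ⁅R X, R Y⁆ + (⁅R (R X), Y⁆ - R ⁅R X, Y⁆) + (⁅X, R (R Y)⁆ - R ⁅X, R Y⁆)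

lemma jacobi_op (R : L →ₗ[ℂ] L) (X Y Z : L) :
    opBracket R X (opBracket R Y Z) + opBracket R Y (opBracket R Z X)
      + opBracket R Z (opBracket R X Y) =
    -((wc R X ⁅Y, Z⁆ + ⁅X, wc R Y Z⁆) + (wc R Y ⁅Z, X⁆ + ⁅Y, wc R Z X⁆)
      + (wc R Z ⁅X, Y⁆ + ⁅Z, wc R X Y⁆)) := by
  have j1 := lie_jacobi (R X) (R Y) Z
  have j2 := lie_jacobi (R X) Y (R Z)
  have j3 := lie_jacobi X (R Y) (R Z)
  have k1 := congrArg R (lie_jacobi (R X) Y Z)
  have k2 := congrArg R (lie_jacobi X (R Y) Z)
  have k3 := congrArg R (lie_jacobi X Y (R Z))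
  have l1 := congrArg R (congrArg R (lie_jacobi X Y Z))
  have n1 := lie_jacobi (R (R X)) Y Z
  have n2 := lie_jacobi X (R (R Y)) Z
  have n3 := lie_jacobi X Y (R (R Z))
  simp only [map_add, map_zero] at k1 k2 k3 l1
  simp only [opBracket_apply, wc, map_add, map_sub, lie_add, lie_sub]
  linear_combination (norm := abel) j1 + j2 + j3 - k1 - k2 - k3 + n1 + n2 + n3

/-- The operator `M x Z = [R x, Z] - R [x, Z]`. -/
def mc (R : L →ₗ[ℂ] L) (x Z : L) : L := ⁅R x, Z⁆ - R ⁅x, Z⁆

lemma wc_left_ker {R : L →ₗ[ℂ] L} {X : L} (hX : R X = 0) (W : L) :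
    wc R X W = - mc R (R W) X := by
  simp only [wc, mc, hX, map_zero, zero_lie, sub_self, add_zero, zero_add]
  rw [← lie_skew (R (R W)) X, ← lie_skew (R W) X, map_neg]
  abel

lemma wc_ker_ker {R : L →ₗ[ℂ] L} {X Y : L} (hX : R X = 0) (hY : R Y = 0) : wc R X Y = 0 := by
  rw [wc_left_ker hX, hY]
  simp [mc]

/-- Conversely, a square-zero Nijenhuis operator gives a compatible bracket. -/
theorem compatible_of_nijenhuis {R : L →ₗ[ℂ] L} (h2 : ∀ X, R (R X) = 0)
    (hN : ∀ X Y, R ⁅R X, Y⁆ + R ⁅X, R Y⁆ = ⁅R X, R Y⁆) : Compatible (opBracket R) := by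
  have h3 : ∀ X Y, R ⁅R X, R Y⁆ = 0 := by
    intro X Y
    rw [← hN, map_add, h2, h2, add_zero]
  have key : ∀ c : ℂ, IsLieBr (ownBracket L + c • opBracket R) := by
    intro c
    refine isLieBr_of_conj _ (LinearMap.id + c • R) (LinearMap.id - c • R) (fun X => ?_)
      (fun X Y => ?_)
    · simp only [LinearMap.add_apply, LinearMap.sub_apply, LinearMap.id_apply, LinearMap.smul_apply,
        map_sub, map_smul, h2, smul_zero]
      module
    · have e1 := hN X Y
      have e2 := h3 X Y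
      simp only [LinearMap.add_apply, LinearMap.sub_apply,
        LinearMap.id_apply, LinearMap.smul_apply, ownBracket_apply, opBracket_apply, add_lie,
        lie_add, smul_lie, lie_smul, map_add, map_smul, smul_sub, smul_add, e2, smul_zero]
      linear_combination (norm := module) (c * c) • e1
  refine ⟨⟨fun X => ?_, fun X Y Z => ?_⟩, key⟩
  · rw [opBracket_apply, lie_self, map_zero, ← lie_skew (R X) X]
    abel
  · have k1 := (key 1).2 X Y Z
    have k2 := (key (-1)).2 X Y Z
    have k0 := lie_jacobi X Y Z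
    simp only [LinearMap.add_apply, LinearMap.smul_apply, ownBracket_apply, one_smul, neg_smul,
      map_add, map_neg, lie_add, lie_neg, LinearMap.neg_apply] at k1 k2
    set a := opBracket R X (opBracket R Y Z)
    set b := opBracket R Y (opBracket R Z X)
    set c := opBracket R Z (opBracket R X Y)
    have : (2 : ℂ) • (a + b + c) = 0 := by
      linear_combination (norm := module) k1 + k2 - (2 : ℂ) • k0
    exact (smul_eq_zero.mp this).resolve_left two_ne_zero

end General

end Pool.Agent.Work.MP_3d4872_al.Sr
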