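import Pool.Agent.Work.MP_3d4872_al.Defs

/-!
# MP_3d4872_al: pre-Lie data of a compatible bracket of small rank, definitions
-/

set_option autoImplicit false

namespace Pool.Agent.Work.MP_3d4872_al.Sr

/-- The dimension of the orbit of `y`, that is of `[y, L]`. -/
noncomputable def orbitDim {L : Type*} [LieRing L] [LieAlgebra ℂ L] (y : L) : ℕ :=
  Module.finrank ℂ (LinearMap.range (LieAlgebra.ad ℂ L y : L →ₗ[ℂ] L))

/-- The rank of a linear operator. -/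
noncomputable def rk {L : Type*} [AddCommGroup L] [Module ℂ L] (R : L →ₗ[ℂ] L) : ℕ :=
  Module.finrank ℂ (LinearMap.range R)

/-- `R` is a square-zero Nijenhuis operator: `R² = 0` and `R[R X, Y] + R[X, R Y] = [R X, R Y]`. -/
def SqZeroNijenhuis {L : Type*} [LieRing L] [LieAlgebra ℂ L] (R : L →ₗ[ℂ] L) : Prop :=
  (∀ X, R (R X) = 0) ∧ ∀ X Y, R ⁅R X, Y⁆ + R ⁅X, R Y⁆ = ⁅R X, R Y⁆

/-- `μ` is a pre-Lie (left-symmetric) product on the vector space `N`. -/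
def IsPreLie {N : Type*} [AddCommGroup N] [Module ℂ N] (μ : N →ₗ[ℂ] N →ₗ[ℂ] N) : Prop :=
  ∀ x y z, μ (μ x y) z - μ x (μ y z) = μ (μ y x) z - μ y (μ x z)

/-- Isomorphism of two products on vector spaces. -/
def ProdIso {N N' : Type*} [AddCommGroup N] [Module ℂ N] [AddCommGroup N'] [Module ℂ N']
    (μ : N →ₗ[ℂ] N →ₗ[ℂ] N) (μ' : N' →ₗ[ℂ] N' →ₗ[ℂ] N') : Prop :=
  ∃ T : N ≃ₗ[ℂ] N', ∀ x y, T (μ x y) = μ' (T x) (T y)

/-- A realization of the product `μ` on `N` in the Lie algebra `L`: an injective linear map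
`i : N → L` and a surjective linear map `j : L → N` with `j ∘ i = 0`, such that `i` is a
homomorphism for the commutator of `μ`, and `j` is a homomorphism of `N`-modules, where
`N` acts on `L` through `i` and on `N` by the left multiplications of `μ`. -/
structure Realization {L : Type*} [LieRing L] [LieAlgebra ℂ L]
    {N : Type*} [AddCommGroup N] [Module ℂ N] (μ : N →ₗ[ℂ] N →ₗ[ℂ] N)
    (i : N →ₗ[ℂ] L) (j : L →ₗ[ℂ] N) : Prop where
  inj : Function.Injective i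
  surj : Function.Surjective j
  zero : ∀ x, j (i x) = 0
  lie : ∀ x y, i (μ x y - μ y x) = ⁅i x, i y⁆
  mod : ∀ x Y, j ⁅i x, Y⁆ = μ x (j Y)

/-- Products on `ℂ^m`. -/
abbrev Prod' (m : ℕ) : Type := (Fin m → ℂ) →ₗ[ℂ] (Fin m → ℂ) →ₗ[ℂ] (Fin m → ℂ)

/-- All nonzero elements of `L` have orbits of dimension larger than `4 m`. -/
def BigOrbits (m : ℕ) (L : Type*) [LieRing L] [LieAlgebra ℂ L] : Prop :=
  ∀ y : L, y ≠ 0 → 4 * m < orbitDim y

/-- All `m`-dimensional pre-Lie algebras `μ` are realized in `L`, by `i μ` and a fixed `j`, and two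
of the brackets of the operators `i μ ∘ j` are equivalent if and only if the pre-Lie algebras are
isomorphic. -/
def CarriesPreLie (m : ℕ) (L : Type*) [LieRing L] [LieAlgebra ℂ L] : Prop :=
  ∃ (i : Prod' m → (Fin m → ℂ) →ₗ[ℂ] L) (j : L →ₗ[ℂ] (Fin m → ℂ)),
    ∀ μ, IsPreLie μ → Realization μ (i μ) j ∧ ∀ μ', IsPreLie μ' →
      (Equivalent (opBracket (i μ ∘ₗ j)) (opBracket (i μ' ∘ₗ j)) ↔ ProdIso μ μ')

/-- The bracket `c [X, Y] + [X, Y]_R`. -/
noncomputable def br {L : Type*} [LieRing L] [LieAlgebra ℂ L] (c : ℂ) (R : L →ₗ[ℂ] L) :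
    L →ₗ[ℂ] L →ₗ[ℂ] L := c • ownBracket L + opBracket R

/-- For `R` of rank at most `m`, the bracket `c [X, Y] + [X, Y]_R` is a Lie bracket (equivalently, a
compatible Lie bracket) if and only if `R` is a square-zero Nijenhuis operator. -/
def JacobiIffNijenhuis (m : ℕ) (L : Type*) [LieRing L] [LieAlgebra ℂ L] : Prop :=
  ∀ (c : ℂ) (R : L →ₗ[ℂ] L), rk R ≤ m →
    (IsLieBr (br c R) ↔ SqZeroNijenhuis R) ∧ (Compatible (br c R) ↔ SqZeroNijenhuis R)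

/-- The scalar `c` and the operator `R` of rank at most `m` are determined by the bracket, and
equivalence of brackets is equality of the scalars and conjugacy of the operators. -/
def OperatorUnique (m : ℕ) (L : Type*) [LieRing L] [LieAlgebra ℂ L] : Prop :=
  ∀ (c c' : ℂ) (R R' : L →ₗ[ℂ] L), rk R ≤ m → rk R' ≤ m →
    (br c R = br c' R' ↔ c = c' ∧ R = R') ∧
    (Equivalent (br c R) (br c' R') ↔
      c' = c ∧ ∃ φ : L ≃ₗ⁅ℂ⁆ L, ∀ X, R' X = φ.symm (R (φ X)))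

/-- Isomorphism of two realizations `(i, j)` of `μ` and `(i', j')` of `μ'`: an automorphism `φ` of
`L` and an isomorphism `T` from `μ` to `μ'` with `φ ∘ i' ∘ T = i` and `j' = T ∘ j ∘ φ`. -/
def RealizationIso {L : Type*} [LieRing L] [LieAlgebra ℂ L] {n n' : ℕ} (μ : Prod' n)
    (i : (Fin n → ℂ) →ₗ[ℂ] L) (j : L →ₗ[ℂ] (Fin n → ℂ)) (μ' : Prod' n')
    (i' : (Fin n' → ℂ) →ₗ[ℂ] L) (j' : L →ₗ[ℂ] (Fin n' → ℂ)) : Prop :=
  ∃ (φ : L ≃ₗ⁅ℂ⁆ L) (T : (Fin n → ℂ) ≃ₗ[ℂ] (Fin n' → ℂ)),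
    (∀ x y, T (μ x y) = μ' (T x) (T y)) ∧ (∀ x, φ (i' (T x)) = i x) ∧ ∀ X, j' X = T (j (φ X))

/-- The brackets of two realizations of dimension at most `m` are equivalent if and only if the
scalars are equal and the realizations are isomorphic. -/
def EquivalentIffIso (m : ℕ) (L : Type*) [LieRing L] [LieAlgebra ℂ L] : Prop :=
  ∀ (n n' : ℕ) (μ : Prod' n) (μ' : Prod' n') (i : (Fin n → ℂ) →ₗ[ℂ] L) (j : L →ₗ[ℂ] (Fin n → ℂ))
    (i' : (Fin n' → ℂ) →ₗ[ℂ] L) (j' : L →ₗ[ℂ] (Fin n' → ℂ)) (c c' : ℂ), n ≤ m → n' ≤ m →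
    Realization μ i j → Realization μ' i' j' →
      (Equivalent (br c (i ∘ₗ j)) (br c' (i' ∘ₗ j')) ↔
        c' = c ∧ RealizationIso μ i j μ' i' j')

/-- The square-zero Nijenhuis operators of rank `n` are the operators `i ∘ j` of the realizations
`(i, j)` of pre-Lie products on `ℂ^n`. -/
def NijenhuisIffRealized (L : Type*) [LieRing L] [LieAlgebra ℂ L] : Prop :=
  (∀ R : L →ₗ[ℂ] L, SqZeroNijenhuis R →
    ∃ (μ : Prod' (rk R)) (i : (Fin (rk R) → ℂ) →ₗ[ℂ] L) (j : L →ₗ[ℂ] (Fin (rk R) → ℂ)),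
      Realization μ i j ∧ R = i ∘ₗ j) ∧
  ∀ (n : ℕ) (μ : Prod' n) (i : (Fin n → ℂ) →ₗ[ℂ] L) (j : L →ₗ[ℂ] (Fin n → ℂ)),
    Realization μ i j → IsPreLie μ ∧ rk (i ∘ₗ j) = n ∧ SqZeroNijenhuis (i ∘ₗ j)

end Pool.Agent.Work.MP_3d4872_al.Sr
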