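import Pool.Agent.Work.MP_3d4872_al.Sr.SlOrbit
import Pool.Agent.Work.MP_3d4872_al.Sr.SrDefs
import Pool.Agent.Work.MP_3d4872_al.Skew

/-!
# MP_3d4872_al: the smallest orbits of the orthogonal and symplectic Lie algebras
-/

set_option autoImplicit false
set_option linter.unusedSectionVars false

namespace Pool.Agent.Work.MP_3d4872_al.Sr

open Pool.Agent.Work.MP_3d4872_al Module Matrix LieAlgebra

attribute [local instance 100] LieRing.ofAssociativeRing

section

variable {n : Type*} [Fintype n] [DecidableEq n]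

lemma exists_dot {a b : n → ℂ} (h : ∀ c : ℂ, b ≠ c • a) : ∃ w : n → ℂ, a ⬝ᵥ w = 0 ∧ b ⬝ᵥ w ≠ 0 := by
  by_contra hcon
  push Not at hcon
  by_cases ha : a = 0
  · subst ha
    apply h 0
    ext j
    have := hcon (Pi.single j 1) (by simp)
    simpa using this
  · obtain ⟨i, hi⟩ : ∃ i, a i ≠ 0 := by
      by_contra hc
      push Not at hc
      exact ha (funext hc)
    apply h (b i / a i)
    ext j
    have h1 := hcon (a i • Pi.single j 1 - a j • Pi.single i 1) (by
      simp [dotProduct_sub, dotProduct_smul]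
      ring)
    simp only [dotProduct_sub, dotProduct_smul, dotProduct_single, mul_one, smul_eq_mul] at h1
    rw [Pi.smul_apply, smul_eq_mul, div_mul_eq_mul_div, eq_div_iff hi]
    linear_combination h1

/-- The elements of rank two of the Lie algebra of a form. -/
def eM (J : Matrix n n ℂ) (ε : ℂ) (u v : n → ℂ) : Matrix n n ℂ :=
  vecMulVec u (J *ᵥ v) - ε • vecMulVec v (J *ᵥ u)

lemma vecMul_J {J : Matrix n n ℂ} {ε : ℂ} (hJ : Jᵀ = ε • J) (u : n → ℂ) :
    u ᵥ* J = ε • (J *ᵥ u) := by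
  rw [← Matrix.mulVec_transpose, hJ, Matrix.smul_mulVec]

lemma eM_mem {J : Matrix n n ℂ} {ε : ℂ} (hε : ε * ε = 1) (hJ : Jᵀ = ε • J) (u v : n → ℂ) :
    eM J ε u v ∈ skewAdjointMatricesLieSubalgebra J := by
  rw [mem_skew, eM, Matrix.transpose_sub, Matrix.transpose_smul, Matrix.transpose_vecMulVec,
    Matrix.transpose_vecMulVec, sub_mul, mul_sub, Matrix.smul_mul, Matrix.mul_smul,
    vecMulVec_mul', vecMulVec_mul', mul_vecMulVec', mul_vecMulVec', vecMul_J hJ, vecMul_J hJ,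
    Matrix.vecMulVec_smul, Matrix.vecMulVec_smul, smul_smul, hε, one_smul]
  abel

lemma eM_comm {J : Matrix n n ℂ} {ε : ℂ} {y : Matrix n n ℂ} (hy : yᵀ * J = -(J * y))
    (u v : n → ℂ) : y * eM J ε u v - eM J ε u v * y
      = vecMulVec (y *ᵥ u) (J *ᵥ v) - ε • vecMulVec (y *ᵥ v) (J *ᵥ u)
        + vecMulVec u (J *ᵥ (y *ᵥ v)) - ε • vecMulVec v (J *ᵥ (y *ᵥ u)) := by
  have h : ∀ w, (J *ᵥ w) ᵥ* y = - (J *ᵥ (y *ᵥ w)) := by
    intro w
    rw [← Matrix.mulVec_transpose, Matrix.mulVec_mulVec, hy, Matrix.neg_mulVec,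
      Matrix.mulVec_mulVec]
  have hn : ∀ a b : n → ℂ, vecMulVec a (-b) = - vecMulVec a b := by
    intro a b
    ext i j
    simp [vecMulVec_apply]
  rw [eM, mul_sub, sub_mul, Matrix.mul_smul, Matrix.smul_mul, mul_vecMulVec', mul_vecMulVec',
    vecMulVec_mul', vecMulVec_mul', h, h, hn, hn, smul_neg]
  abel

/-- Nonzero elements of the Lie algebra of a nondegenerate form on `ℂ^N` have orbits of dimension
at least `N - 2`. -/
theorem orbitDim_skew {J J' : Matrix n n ℂ} {ε : ℂ} (h' : J' * J = 1)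
    (hε : ε * ε = 1) (hJ : Jᵀ = ε • J) (y : skewAdjointMatricesLieSubalgebra J) (hy : y ≠ 0) :
    Fintype.card n ≤ orbitDim y + 2 := by
  have hJinj : ∀ a b : n → ℂ, J *ᵥ a = J *ᵥ b → a = b := by
    intro a b hab
    have := congrArg (fun z => J' *ᵥ z) hab
    simpa [Matrix.mulVec_mulVec, h'] using this
  have hym : y.valᵀ * J = -(J * y.val) := (mem_skew _ _).1 y.2
  obtain ⟨v, hv⟩ : ∃ v : n → ℂ, ∀ c : ℂ, y.val *ᵥ v ≠ c • v := by
    by_contra hcon
    push Not at hcon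
    obtain ⟨c, hc⟩ := exists_scalar_of_eigen y.val hcon
    apply hy
    rw [hc, Matrix.transpose_smul, Matrix.transpose_one, Matrix.smul_mul, Matrix.mul_smul, one_mul,
      mul_one] at hym
    have h1 : (2 * c) • J = 0 := by
      rw [mul_smul, two_smul]
      nth_rw 1 [hym]
      exact neg_add_cancel _
    have h2 : (2 * c) • (J' * J) = 0 := by
      rw [← Matrix.mul_smul, h1, Matrix.mul_zero]
    rw [h'] at h2
    apply Subtype.ext
    change y.val = 0
    rw [hc]
    have h3 : (2 : ℂ) • (c • (1 : Matrix n n ℂ)) = 0 := by rw [smul_smul, h2]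
    exact (smul_eq_zero.mp h3).resolve_left two_ne_zero
  obtain ⟨w, hw0, hw1⟩ := exists_dot (a := J *ᵥ v) (b := J *ᵥ (y.val *ᵥ v)) (by
    intro c hc
    apply hv c
    apply hJinj
    rw [hc, Matrix.mulVec_smul])
  let Φ : (n → ℂ) →ₗ[ℂ] skewAdjointMatricesLieSubalgebra J :=
    { toFun := fun u => ⟨eM J ε u v, eM_mem hε hJ u v⟩
      map_add' := by
        intro a b
        apply Subtype.ext
        change eM J ε (a + b) v = eM J ε a v + eM J ε b v
        rw [eM, eM, eM, Matrix.mulVec_add, Matrix.add_vecMulVec, Matrix.vecMulVec_add, smul_add]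
        abel
      map_smul' := by
        intro c a
        apply Subtype.ext
        change eM J ε (c • a) v = c • eM J ε a v
        rw [eM, eM, Matrix.mulVec_smul, Matrix.smul_vecMulVec, Matrix.vecMulVec_smul, smul_sub,
          smul_comm ε c] }
  let A : skewAdjointMatricesLieSubalgebra J →ₗ[ℂ] skewAdjointMatricesLieSubalgebra J :=
    (LieAlgebra.ad ℂ _ y : _ →ₗ[ℂ] _)
  have hker : ∀ u : n → ℂ, (A ∘ₗ Φ) u = 0 → ∃ a b : ℂ, u = a • v + b • (y.val *ᵥ v) := by
    intro u hu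
    have h1 := congrArg Subtype.val hu
    change y.val * eM J ε u v - eM J ε u v * y.val = 0 at h1
    rw [eM_comm hym] at h1
    have h2 := congrArg (fun M : Matrix n n ℂ => M *ᵥ w) h1
    simp only [Matrix.sub_mulVec, Matrix.add_mulVec, Matrix.smul_mulVec, Matrix.vecMulVec_mulVec,
      hw0, op_smul_eq_smul, zero_smul, Matrix.zero_mulVec, zero_sub] at h2
    set t := (J *ᵥ (y.val *ᵥ v)) ⬝ᵥ w with ht
    refine ⟨t⁻¹ * (ε * ((J *ᵥ (y.val *ᵥ u)) ⬝ᵥ w)), t⁻¹ * (ε * ((J *ᵥ u) ⬝ᵥ w)), ?_⟩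
    have h3 : t • u = (ε * ((J *ᵥ (y.val *ᵥ u)) ⬝ᵥ w)) • v
        + (ε * ((J *ᵥ u) ⬝ᵥ w)) • (y.val *ᵥ v) := by
      linear_combination (norm := module) h2
    have h4 : u = t⁻¹ • (t • u) := by rw [smul_smul, inv_mul_cancel₀ hw1, one_smul]
    refine h4.trans ?_
    rw [h3]
    module
  have h1 := LinearMap.finrank_range_add_finrank_ker (A ∘ₗ Φ)
  have h2 : finrank ℂ (LinearMap.range (A ∘ₗ Φ)) ≤ orbitDim y :=
    Submodule.finrank_mono (LinearMap.range_comp_le_range _ _)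
  have h3 : finrank ℂ (LinearMap.ker (A ∘ₗ Φ)) ≤ 2 := by
    have h5 : LinearMap.ker (A ∘ₗ Φ) ≤ Submodule.span ℂ ({v, y.val *ᵥ v} : Set (n → ℂ)) := by
      intro u hu
      obtain ⟨a, b, hab⟩ := hker u hu
      rw [Submodule.mem_span_pair]
      exact ⟨a, b, hab.symm⟩
    refine (Submodule.finrank_mono h5).trans ?_
    have h6 := finrank_span_finset_le_card (R := ℂ) ({v, y.val *ᵥ v} : Finset (n → ℂ))
    have h7 := Finset.card_le_two (a := v) (b := y.val *ᵥ v)
    simp only [Finset.coe_insert, Finset.coe_singleton] at h6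
    exact h6.trans h7
  have h8 : finrank ℂ (n → ℂ) = Fintype.card n := Module.finrank_fintype_fun_eq_card ℂ
  omega

end

end Pool.Agent.Work.MP_3d4872_al.Sr
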