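import Pool.Agent.Work.MP_3d4872_al.Sr.SlReal
import Pool.Agent.Work.MP_3d4872_al.TypeBCD

/-!
# MP_3d4872_al: every pre-Lie algebra is realized in the orthogonal and symplectic Lie algebras
-/

set_option autoImplicit false
set_option linter.unusedSectionVars false
set_option synthInstance.maxSize 1000

namespace Pool.Agent.Work.MP_3d4872_al.Sr

open Pool.Agent.Work.MP_3d4872_al Module Matrix LieAlgebra

attribute [local instance 100] LieRing.ofAssociativeRing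

variable {m r : ℕ} {κ : Type*} [Fintype κ] [DecidableEq κ]

/-- The embedding `i`. -/
noncomputable def iK (G : Matrix κ κ ℂ) (ε : ℂ) (r : ℕ) (μ : Prod' m) :
    (Fin m → ℂ) →ₗ[ℂ] skewAdjointMatricesLieSubalgebra (bigJ (Ix m r) G ε) where
  toFun x := emb2 G ε (bI r μ x)
  map_add' x y := by
    rw [← map_add]
    congr 1
    exact congrArg Subtype.val ((iS r μ).map_add x y)
  map_smul' c x := by
    rw [RingHom.id_apply, ← map_smul]
    congr 1
    exact congrArg Subtype.val ((iS r μ).map_smul c x)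

/-- The projection `j`. -/
def jK (G : Matrix κ κ ℂ) (ε : ℂ) (m r : ℕ) :
    skewAdjointMatricesLieSubalgebra (bigJ (Ix m r) G ε) →ₗ[ℂ] (Fin m → ℂ) where
  toFun X := fun a => X.val (Sum.inr (Sum.inl (Sum.inr (Sum.inl (Sum.inl a)))))
    (Sum.inr (Sum.inl (Sum.inr (Sum.inl (Sum.inr ())))))
  map_add' _ _ := rfl
  map_smul' _ _ := rfl

lemma jK_apply (G : Matrix κ κ ℂ) (ε : ℂ)
    (X : skewAdjointMatricesLieSubalgebra (bigJ (Ix m r) G ε)) (a : Fin m) :
    jK G ε m r X a = X.val (Sum.inr (Sum.inl (Sum.inr (Sum.inl (Sum.inl a)))))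
    (Sum.inr (Sum.inl (Sum.inr (Sum.inl (Sum.inr ()))))) := rfl

lemma jK_lie (G : Matrix κ κ ℂ) (ε : ℂ) (μ : Prod' m) (x : Fin m → ℂ)
    (Y : skewAdjointMatricesLieSubalgebra (bigJ (Ix m r) G ε)) :
    jK G ε m r ⁅iK G ε r μ x, Y⁆ = μ x (jK G ε m r Y) := by
  ext a
  rw [jK_apply]
  change (m2 κ (bI r μ x) * Y.val - Y.val * m2 κ (bI r μ x)) _ _ = _
  rw [← lm_mulVec]
  simp only [m2, bI, bA, bB, bC, Matrix.sub_apply, Matrix.mul_apply, Fintype.sum_sum_type,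
    fromBlocks_apply₁₁, fromBlocks_apply₁₂, fromBlocks_apply₂₁, fromBlocks_apply₂₂,
    Matrix.zero_apply, zero_mul, mul_zero, Finset.sum_const_zero, zero_add, add_zero, sub_zero,
    Matrix.mulVec, dotProduct, jK_apply]

lemma iK_realization (G : Matrix κ κ ℂ) (ε : ℂ) {μ : Prod' m} (h : IsPreLie μ) (r : ℕ) :
    Realization μ (iK G ε r μ) (jK G ε m r) where
  inj := by
    intro x y hxy
    ext a
    have e : m2 κ (bI r μ x) = m2 κ (bI r μ y) := congrArg Subtype.val hxy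
    have e2 := congrFun (congrFun e (Sum.inr (Sum.inl (Sum.inl (Sum.inl a)))))
      (Sum.inr (Sum.inl (Sum.inl (Sum.inr ()))))
    simpa [m2, bI, bA] using e2
  surj := by
    intro z
    refine ⟨emb2 G ε (nM r z), ?_⟩
    ext a
    rw [jK_apply, emb2_val]
    simp [m2, nM]
  zero := by
    intro x
    ext a
    rw [jK_apply]
    change m2 κ (bI r μ x) _ _ = 0
    simp [m2, bI, bB]
  lie := by
    intro x y
    change emb2 G ε (bI r μ (μ x y - μ y x)) = ⁅emb2 G ε (bI r μ x), emb2 G ε (bI r μ y)⁆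
    rw [emb2_lie, bI_comm h]
  mod := jK_lie G ε μ

/-- Isomorphic products have conjugate realizations. -/
theorem exists_conjK (G : Matrix κ κ ℂ) (ε : ℂ) {μ μ' : Prod' m}
    (T : (Fin m → ℂ) ≃ₗ[ℂ] (Fin m → ℂ))
    (hT : ∀ x y, T (μ x y) = μ' (T x) (T y)) (r : ℕ) :
    ∃ φ : skewAdjointMatricesLieSubalgebra (bigJ (Ix m r) G ε) ≃ₗ⁅ℂ⁆
        skewAdjointMatricesLieSubalgebra (bigJ (Ix m r) G ε),
      (∀ x, φ (iK G ε r μ' (T x)) = iK G ε r μ x) ∧
      ∀ X, jK G ε m r X = T (jK G ε m r (φ X)) := by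
  set P : Matrix (Fin m) (Fin m) ℂ := LinearMap.toMatrix' (T : (Fin m → ℂ) →ₗ[ℂ] (Fin m → ℂ))
    with hP
  set Q : Matrix (Fin m) (Fin m) ℂ :=
    LinearMap.toMatrix' (T.symm : (Fin m → ℂ) →ₗ[ℂ] (Fin m → ℂ)) with hQ
  have hPQ : P * Q = 1 := by
    rw [hP, hQ, ← LinearMap.toMatrix'_comp, LinearEquiv.comp_symm, LinearMap.toMatrix'_id]
  have hQP : Q * P = 1 := by
    rw [hP, hQ, ← LinearMap.toMatrix'_comp, LinearEquiv.symm_comp, LinearMap.toMatrix'_id]
  have hPv : ∀ v, P *ᵥ v = T v := by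
    intro v
    rw [hP, ← Matrix.toLin'_apply, Matrix.toLin'_toMatrix']
    rfl
  have hx : ∀ x, P * lm μ x * Q = lm μ' (P *ᵥ x) := by
    intro x
    rw [hPv, lm, lm, hP, hQ, ← LinearMap.toMatrix'_comp, ← LinearMap.toMatrix'_comp]
    congr 1
    apply LinearMap.ext
    intro z
    change T (μ x (T.symm z)) = μ' (T x) z
    rw [hT, LinearEquiv.apply_symm_apply]
  have h1 : bG r P * bG r Q = 1 := bG_mul hPQ
  have h2 : bG r Q * bG r P = 1 := bG_mul hQP
  refine ⟨conjSkew (fromBlocks (1 : Matrix κ κ ℂ) 0 0 (fromBlocks (bG r Q) 0 0 (bG r P)ᵀ))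
      (fromBlocks (1 : Matrix κ κ ℂ) 0 0 (fromBlocks (bG r P) 0 0 (bG r Q)ᵀ))
      (iso_inv (bG r Q) (bG r P) h2 h1) (iso_inv (bG r P) (bG r Q) h1 h2)
      (iso_form G ε (bG r Q) (bG r P)) (iso_form G ε (bG r P) (bG r Q)),
      fun x => ?_, fun X => ?_⟩
  · apply Subtype.ext
    rw [conjSkew_apply]
    change _ * m2 κ (bI r μ' (T x)) * _ = m2 κ (bI r μ x)
    rw [iso_conj]
    congr 1
    rw [← hPv, ← bG_bI P Q hQP x (hx x)]
    calc bG r Q * (bG r P * bI r μ x * bG r Q) * bG r P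
        = (bG r Q * bG r P) * bI r μ x * (bG r Q * bG r P) := by noncomm_ring
      _ = bI r μ x := by rw [h2, one_mul, mul_one]
  · rw [← hPv]
    have e : jK G ε m r (conjSkew
        (fromBlocks (1 : Matrix κ κ ℂ) 0 0 (fromBlocks (bG r Q) 0 0 (bG r P)ᵀ))
      (fromBlocks (1 : Matrix κ κ ℂ) 0 0 (fromBlocks (bG r P) 0 0 (bG r Q)ᵀ))
      (iso_inv (bG r Q) (bG r P) h2 h1) (iso_inv (bG r P) (bG r Q) h1 h2)
      (iso_form G ε (bG r Q) (bG r P)) (iso_form G ε (bG r P) (bG r Q)) X)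
        = Q *ᵥ jK G ε m r X := by
      ext a
      rw [jK_apply, conjSkew_apply]
      simp [bG, Matrix.mul_apply, Fintype.sum_sum_type, Matrix.mulVec, dotProduct, jK_apply,
        Matrix.one_apply]
    rw [e, Matrix.mulVec_mulVec, hPQ, Matrix.one_mulVec]

end Pool.Agent.Work.MP_3d4872_al.Sr
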