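import Pool.Agent.Work.MP_3d4872_al.Sr.Struct
import Pool.Agent.Work.MP_3d4872_al.Sr.SkewReal
import Pool.Agent.Work.MP_3d4872_al.Sr.SkewOrbit
import Pool.Agent.Work.MP_3d4872_al.Final

/-!
# MP_3d4872_al: the small-rank part of the classification for the classical Lie algebras
-/

set_option autoImplicit false
set_option linter.unusedSectionVars false
set_option synthInstance.maxSize 1000

namespace Pool.Agent.Work.MP_3d4872_al.Sr

open Pool.Agent.Work.MP_3d4872_al Module Matrix LieAlgebra LieAlgebra.SpecialLinear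
open LieAlgebra.Orthogonal LieAlgebra.Symplectic

attribute [local instance 100] LieRing.ofAssociativeRing

/-- A natural family of realizations of all pre-Lie products on `ℂ^m`. -/
structure Fam (m : ℕ) (K : Type*) [LieRing K] [LieAlgebra ℂ K] where
  i : Prod' m → (Fin m → ℂ) →ₗ[ℂ] K
  j : K →ₗ[ℂ] (Fin m → ℂ)
  real : ∀ μ, IsPreLie μ → Realization μ (i μ) j
  conj : ∀ (μ μ' : Prod' m) (T : (Fin m → ℂ) ≃ₗ[ℂ] (Fin m → ℂ)),
    (∀ x y, T (μ x y) = μ' (T x) (T y)) →
      ∃ φ : K ≃ₗ⁅ℂ⁆ K, (∀ x, φ (i μ' (T x)) = i μ x) ∧ ∀ X, j X = T (j (φ X))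

section General

variable {m : ℕ} {K L H : Type*} [LieRing K] [LieAlgebra ℂ K] [LieRing L] [LieAlgebra ℂ L]
  [LieRing H] [LieAlgebra ℂ H]

/-- Transport of a family. -/
def Fam.transport (F : Fam m K) (e : K ≃ₗ⁅ℂ⁆ L) : Fam m L where
  i μ := (e : K →ₗ[ℂ] L) ∘ₗ F.i μ
  j := F.j ∘ₗ (e.symm : L →ₗ[ℂ] K)
  real μ hμ := (F.real μ hμ).transport e.symm
  conj μ μ' T hT := by
    obtain ⟨φ, h1, h2⟩ := F.conj μ μ' T hT
    refine ⟨(e.symm.trans φ).trans e, fun x => ?_, fun X => ?_⟩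
    · change e (φ (e.symm (e (F.i μ' (T x))))) = e (F.i μ x)
      rw [LieEquiv.symm_apply_apply, h1]
    · change F.j (e.symm X) = T (F.j (e.symm (e (φ (e.symm X)))))
      rw [LieEquiv.symm_apply_apply, h2]

/-- The family of a direct product. -/
def Fam.prod (F : Fam m K) (H : Type*) [LieRing H] [LieAlgebra ℂ H] : Fam m (K × H) where
  i μ := LinearMap.inl ℂ K H ∘ₗ F.i μ
  j := F.j ∘ₗ LinearMap.fst ℂ K H
  real μ hμ :=
    { inj := by
        intro a b hab
        exact (F.real μ hμ).inj (congrArg Prod.fst hab)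
      surj := by
        intro z
        obtain ⟨Z, hZ⟩ := (F.real μ hμ).surj z
        exact ⟨(Z, 0), hZ⟩
      zero := fun x => (F.real μ hμ).zero x
      lie := by
        intro x y
        refine Prod.ext ((F.real μ hμ).lie x y) ?_
        change (0 : H) = ⁅(0 : H), (0 : H)⁆
        rw [lie_zero]
      mod := fun x Y => (F.real μ hμ).mod x Y.1 }
  conj μ μ' T hT := by
    obtain ⟨φ, h1, h2⟩ := F.conj μ μ' T hT
    refine ⟨{ toFun := fun w => (φ w.1, w.2)
              map_add' := fun v w => by simp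
              map_smul' := fun c v => by simp
              map_lie' := by
                intro v w
                exact Prod.ext (LieEquiv.map_lie φ v.1 w.1) rfl
              invFun := fun w => (φ.symm w.1, w.2)
              left_inv := fun w => by simp
              right_inv := fun w => by simp }, fun x => ?_, fun X => ?_⟩
    · exact Prod.ext (h1 x) rfl
    · exact h2 X.1

theorem Fam.carries [FiniteDimensional ℂ L] [LieAlgebra.IsKilling ℂ L] [Nontrivial L]
    (F : Fam m L) (hL : BigOrbits m L) : CarriesPreLie m L := by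
  refine ⟨F.i, F.j, fun μ hμ => ⟨F.real μ hμ, fun μ' hμ' => ?_⟩⟩
  have h2 := equivalent_realization_iff hL (F.real μ hμ) (F.real μ' hμ') (by simp) (by simp)
    (c := 0) (c' := 0)
  rw [zero_smul, zero_add, zero_add] at h2
  rw [h2]
  constructor
  · rintro ⟨-, φ, T, hT, -⟩
    exact ⟨T, hT⟩
  · rintro ⟨T, hT⟩
    obtain ⟨φ, h3, h4⟩ := F.conj μ μ' T hT
    exact ⟨rfl, φ, T, hT, h3, h4⟩

theorem Fam.carries_of_ideal [FiniteDimensional ℂ L] [LieAlgebra.IsSemisimple ℂ L] [Nontrivial L]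
    (I : LieIdeal ℂ L) (F : Fam m I) (hL : BigOrbits m L) : CarriesPreLie m L := by
  obtain ⟨J, ⟨e⟩⟩ := exists_prod I
  exact ((F.prod J).transport e).carries hL

/-- Large orbits in a direct product. -/
theorem BigOrbits.prod [FiniteDimensional ℂ K] [FiniteDimensional ℂ H] (hK : BigOrbits m K)
    (hH : BigOrbits m H) : BigOrbits m (K × H) := by
  rintro ⟨y, z⟩ hyz
  by_cases hy : y = 0
  · have hz : z ≠ 0 := by
      rintro rfl
      exact hyz (by rw [hy]; rfl)
    refine (hH z hz).trans_le ?_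
    have h1 : LinearMap.range (LieAlgebra.ad ℂ H z : H →ₗ[ℂ] H)
        ≤ (LinearMap.range (LieAlgebra.ad ℂ (K × H) (y, z) : K × H →ₗ[ℂ] K × H)).map
          (LinearMap.snd ℂ K H) := by
      rintro _ ⟨X, rfl⟩
      exact ⟨⁅(y, z), ((0, X) : K × H)⁆, ⟨(0, X), rfl⟩, rfl⟩
    exact (Submodule.finrank_mono h1).trans (Submodule.finrank_map_le _ _)
  · refine (hK y hy).trans_le ?_
    have h1 : LinearMap.range (LieAlgebra.ad ℂ K y : K →ₗ[ℂ] K)
        ≤ (LinearMap.range (LieAlgebra.ad ℂ (K × H) (y, z) : K × H →ₗ[ℂ] K × H)).map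
          (LinearMap.fst ℂ K H) := by
      rintro _ ⟨X, rfl⟩
      exact ⟨⁅(y, z), ((X, 0) : K × H)⁆, ⟨(X, 0), rfl⟩, rfl⟩
    exact (Submodule.finrank_mono h1).trans (Submodule.finrank_map_le _ _)

end General

section Classical

/-- The family of `sl`. -/
noncomputable def famA (m r : ℕ) : Fam m (sl (Ix m r) ℂ) where
  i := iS r
  j := jS m r
  real _ hμ := iS_realization hμ r
  conj _ _ T hT := exists_conj T hT r

/-- The family of the orthogonal and symplectic Lie algebras. -/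
noncomputable def famK {κ : Type*} [Fintype κ] [DecidableEq κ] (G : Matrix κ κ ℂ) (ε : ℂ)
    (m r : ℕ) : Fam m (skewAdjointMatricesLieSubalgebra (bigJ (Ix m r) G ε)) where
  i := iK G ε r
  j := jK G ε m r
  real _ hμ := iK_realization G ε hμ r
  conj _ _ T hT := exists_conjK G ε T hT r

lemma card_Ix (m r : ℕ) : Fintype.card (Ix m r) = 2 * m + 3 + r := by
  simp only [Fintype.card_sum, Fintype.card_fin, Fintype.card_unit]
  ring

lemma exists_fam_sl {m N : ℕ} (hN : 2 * m + 3 ≤ N) : Nonempty (Fam m (sl (Fin N) ℂ)) := by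
  obtain ⟨r, rfl⟩ := Nat.exists_eq_add_of_le hN
  exact ⟨(famA m r).transport (reindexSl (Fintype.equivFinOfCardEq (card_Ix m r)))⟩

lemma exists_fam_so {m N : ℕ} (hN : 4 * m + 6 ≤ N) : Nonempty (Fam m (so (Fin N) ℂ)) := by
  have hc := card_Ix m (N / 2 - (2 * m + 3))
  by_cases h2 : N % 2 = 0
  · refine ⟨((famK (0 : Matrix Empty Empty ℂ) 1 m (N / 2 - (2 * m + 3))).transport
      (reindexSkew _ _ _ bigJ_eq_JD)).transport (dToSo _ ?_)⟩
    rw [Fintype.card_sum, hc]
    omega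
  · refine ⟨((famK ((2 : ℂ) • (1 : Matrix Unit Unit ℂ)) 1 m (N / 2 - (2 * m + 3))).transport
      (reindexSkew _ _ (Equiv.refl _) bigJ_eq_JB)).transport (bToSo _ ?_)⟩
    rw [Fintype.card_sum, Fintype.card_sum, hc, Fintype.card_unit]
    omega

lemma exists_fam_sp {m n : ℕ} (hn : 2 * m + 3 ≤ n) : Nonempty (Fam m (sp (Fin n) ℂ)) := by
  obtain ⟨r, rfl⟩ := Nat.exists_eq_add_of_le hn
  exact ⟨((famK (0 : Matrix Empty Empty ℂ) (-1) m r).transport
    (reindexSkew _ _ _ bigJ_eq_J)).transport (spReindex _ (card_Ix m r))⟩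

/-- The smallest orbits of `sl N`. -/
theorem orbitDim_sl {N : ℕ} (y : sl (Fin N) ℂ) (hy : y ≠ 0) : 2 * N ≤ orbitDim y + 2 := by
  have := card_le_finrank_range_ad y hy
  rwa [Fintype.card_fin] at this

lemma nontrivial_sl {N : ℕ} (h : 2 ≤ N) : Nontrivial (sl (Fin N) ℂ) := by
  refine ⟨⟨SpecialLinear.single (⟨0, by omega⟩ : Fin N) (⟨1, by omega⟩ : Fin N) (by simp) (1 : ℂ),
    0, ?_⟩⟩
  intro h0
  have h1 := congrArg (fun X : sl (Fin N) ℂ => X.val ⟨0, by omega⟩ ⟨1, by omega⟩) h0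
  simp at h1

theorem orbitDim_so {N : ℕ} (y : so (Fin N) ℂ) (hy : y ≠ 0) : N ≤ orbitDim y + 2 := by
  have := orbitDim_skew (J := (1 : Matrix (Fin N) (Fin N) ℂ)) (J' := 1) (ε := 1) (one_mul 1)
    (one_mul 1) (by simp) y hy
  rwa [Fintype.card_fin] at this

theorem orbitDim_sp {n : ℕ} (y : sp (Fin n) ℂ) (hy : y ≠ 0) : 2 * n ≤ orbitDim y + 2 := by
  have := orbitDim_skew (J := Matrix.J (Fin n) ℂ) (J' := -Matrix.J (Fin n) ℂ) (ε := -1)
    (by rw [Matrix.neg_mul, Matrix.J_squared, neg_neg]) (by norm_num)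
    (by rw [Matrix.J_transpose, neg_one_smul]) y hy
  have h : 2 * n = Fintype.card (Fin n ⊕ Fin n) := by
    rw [Fintype.card_sum, Fintype.card_fin]
    ring
  rw [h]
  exact this

end Classical

end Pool.Agent.Work.MP_3d4872_al.Sr
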