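import Pool.Agent.Work.MP_3d4872_al.Sr.Unique
import Pool.Agent.Work.MP_3d4872_al.Sr.SrDefs

/-!
# MP_3d4872_al: pre-Lie data of a compatible bracket of small rank
-/

set_option autoImplicit false
set_option linter.unusedSectionVars false

namespace Pool.Agent.Work.MP_3d4872_al.Sr

open Pool.Agent.Work.MP_3d4872_al Module

variable {L : Type*} [LieRing L] [LieAlgebra ℂ L]

section Real

variable {N : Type*} [AddCommGroup N] [Module ℂ N] {μ : N →ₗ[ℂ] N →ₗ[ℂ] N}
  {i : N →ₗ[ℂ] L} {j : L →ₗ[ℂ] N}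

/-- A realization gives a square-zero Nijenhuis operator. -/
lemma Realization.nijenhuis (h : Realization μ i j) :
    (∀ X, (i ∘ₗ j) ((i ∘ₗ j) X) = 0) ∧
      ∀ X Y, (i ∘ₗ j) ⁅(i ∘ₗ j) X, Y⁆ + (i ∘ₗ j) ⁅X, (i ∘ₗ j) Y⁆
        = ⁅(i ∘ₗ j) X, (i ∘ₗ j) Y⁆ := by
  refine ⟨fun X => ?_, fun X Y => ?_⟩
  · rw [LinearMap.comp_apply, LinearMap.comp_apply, h.zero, map_zero]
  · simp only [LinearMap.comp_apply]
    rw [← lie_skew X (i (j Y)), map_neg, map_neg, h.mod, h.mod, ← h.lie, map_sub]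
    abel

lemma Realization.compatible (h : Realization μ i j) : Compatible (opBracket (i ∘ₗ j)) :=
  compatible_of_nijenhuis h.nijenhuis.1 h.nijenhuis.2

/-- The product of a realization is pre-Lie. -/
lemma Realization.isPreLie (h : Realization μ i j) : IsPreLie μ := by
  intro x y z
  obtain ⟨Z, rfl⟩ := h.surj z
  have h1 : μ (μ x y - μ y x) (j Z) = μ x (μ y (j Z)) - μ y (μ x (j Z)) := by
    rw [← h.mod, h.lie, lie_lie, map_sub, h.mod, h.mod, h.mod, h.mod]
  rw [map_sub, LinearMap.sub_apply] at h1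
  linear_combination (norm := module) h1

lemma Realization.range_eq (h : Realization μ i j) :
    LinearMap.range (i ∘ₗ j) = LinearMap.range i := by
  rw [LinearMap.range_comp, LinearMap.range_eq_top.mpr h.surj, Submodule.map_top]

lemma Realization.rk_eq (h : Realization μ i j) : rk (i ∘ₗ j) = finrank ℂ N := by
  rw [rk, h.range_eq, LinearMap.finrank_range_of_inj h.inj]

/-- Transport of a realization by an automorphism. -/
lemma Realization.transport {L' : Type*} [LieRing L'] [LieAlgebra ℂ L'] (h : Realization μ i j)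
    (φ : L' ≃ₗ⁅ℂ⁆ L) :
    Realization μ ((φ.symm : L →ₗ[ℂ] L') ∘ₗ i) (j ∘ₗ (φ : L' →ₗ[ℂ] L)) where
  inj := by
    intro a b hab
    exact h.inj (φ.symm.injective hab)
  surj := by
    intro z
    obtain ⟨Z, rfl⟩ := h.surj z
    refine ⟨φ.symm Z, ?_⟩
    change j (φ (φ.symm Z)) = j Z
    rw [LieEquiv.apply_symm_apply]
  zero x := by
    change j (φ (φ.symm (i x))) = 0
    rw [LieEquiv.apply_symm_apply, h.zero]
  lie x y := by
    change φ.symm (i (μ x y - μ y x)) = ⁅φ.symm (i x), φ.symm (i y)⁆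
    rw [h.lie, LieEquiv.map_lie]
  mod x Y := by
    change j (φ ⁅φ.symm (i x), Y⁆) = μ x (j (φ Y))
    rw [LieEquiv.map_lie, LieEquiv.apply_symm_apply, h.mod]

variable {N' : Type*} [AddCommGroup N'] [Module ℂ N'] {μ' : N' →ₗ[ℂ] N' →ₗ[ℂ] N'}
  {i' : N' →ₗ[ℂ] L} {j' : L →ₗ[ℂ] N'}

/-- Two realizations of the same operator are isomorphic. -/
theorem Realization.unique (h : Realization μ i j) (h' : Realization μ' i' j')
    (e : ∀ X, i (j X) = i' (j' X)) :
    ∃ T : N ≃ₗ[ℂ] N', (∀ x y, T (μ x y) = μ' (T x) (T y)) ∧ (∀ x, i' (T x) = i x) ∧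
      ∀ X, j' X = T (j X) := by
  obtain ⟨g, hg⟩ := LinearMap.exists_leftInverse_of_injective i (LinearMap.ker_eq_bot.mpr h.inj)
  obtain ⟨g', hg'⟩ := LinearMap.exists_leftInverse_of_injective i'
    (LinearMap.ker_eq_bot.mpr h'.inj)
  have a1 : ∀ x, i' (g' (i x)) = i x := by
    intro x
    obtain ⟨X, rfl⟩ := h.surj x
    rw [e]
    exact congrArg i' (LinearMap.congr_fun hg' (j' X))
  have a2 : ∀ x, i (g (i' x)) = i' x := by
    intro x
    obtain ⟨X, rfl⟩ := h'.surj x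
    rw [← e]
    exact congrArg i (LinearMap.congr_fun hg (j X))
  have b1 : ∀ x, g (i x) = x := LinearMap.congr_fun hg
  have b2 : ∀ x, g' (i' x) = x := LinearMap.congr_fun hg'
  let T : N ≃ₗ[ℂ] N' := LinearEquiv.ofLinearMap (g' ∘ₗ i) (g ∘ₗ i')
    (by
      apply LinearMap.ext
      intro x
      change g' (i (g (i' x))) = x
      rw [a2, b2])
    (by
      apply LinearMap.ext
      intro x
      change g (i' (g' (i x))) = x
      rw [a1, b1])
  have hT : ∀ x, i' (T x) = i x := a1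
  have hj : ∀ X, j' X = T (j X) := by
    intro X
    apply h'.inj
    rw [hT, e]
  refine ⟨T, ?_, hT, hj⟩
  intro x y
  obtain ⟨Y, rfl⟩ := h.surj y
  rw [← hj, ← h.mod, ← hj, ← h'.mod, hT]

end Real

/-- A square-zero Nijenhuis operator has a realization. -/
theorem exists_realization [FiniteDimensional ℂ L] {R : L →ₗ[ℂ] L} (h2 : ∀ X, R (R X) = 0)
    (hN : ∀ X Y, R ⁅R X, Y⁆ + R ⁅X, R Y⁆ = ⁅R X, R Y⁆) :
    ∃ (μ : (Fin (rk R) → ℂ) →ₗ[ℂ] (Fin (rk R) → ℂ) →ₗ[ℂ] (Fin (rk R) → ℂ))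
      (i : (Fin (rk R) → ℂ) →ₗ[ℂ] L) (j : L →ₗ[ℂ] (Fin (rk R) → ℂ)),
      Realization μ i j ∧ R = i ∘ₗ j := by
  let e : LinearMap.range R ≃ₗ[ℂ] (Fin (rk R) → ℂ) := (Module.finBasis ℂ (LinearMap.range R)).equivFun
  let i : (Fin (rk R) → ℂ) →ₗ[ℂ] L := (LinearMap.range R).subtype ∘ₗ (e.symm : _ →ₗ[ℂ] _)
  let j : L →ₗ[ℂ] (Fin (rk R) → ℂ) := (e : _ →ₗ[ℂ] _) ∘ₗ R.rangeRestrict
  have hij : ∀ X, i (j X) = R X := by
    intro X
    change ((e.symm (e (R.rangeRestrict X)) : LinearMap.range R) : L) = R X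
    rw [LinearEquiv.symm_apply_apply]
    rfl
  have hi : Function.Injective i := by
    intro a b hab
    exact e.symm.injective (Subtype.ext hab)
  have hj : Function.Surjective j := by
    intro z
    obtain ⟨X, hX⟩ := R.surjective_rangeRestrict (e.symm z)
    refine ⟨X, ?_⟩
    change e (R.rangeRestrict X) = z
    rw [hX, LinearEquiv.apply_symm_apply]
  obtain ⟨s, hs⟩ := LinearMap.exists_rightInverse_of_surjective j (LinearMap.range_eq_top.mpr hj)
  have hs' : ∀ x, j (s x) = x := LinearMap.congr_fun hs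
  have hiR : ∀ x, i x = R (s x) := by
    intro x
    rw [← hij, hs']
  have hjz : ∀ Z, j Z = 0 → R Z = 0 := by
    intro Z hZ
    rw [← hij, hZ, map_zero]
  have hRz : ∀ Z, R Z = 0 → j Z = 0 := by
    intro Z hZ
    apply hi
    rw [hij, hZ, map_zero]
  have key : ∀ W Z, R Z = 0 → R ⁅R W, Z⁆ = 0 := by
    intro W Z hZ
    have := hN W Z
    rwa [hZ, lie_zero, lie_zero, map_zero, add_zero] at this
  let μ : (Fin (rk R) → ℂ) →ₗ[ℂ] (Fin (rk R) → ℂ) →ₗ[ℂ] (Fin (rk R) → ℂ) :=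
    LinearMap.mk₂ ℂ (fun x y => j ⁅i x, s y⁆)
      (by intro a b c; rw [map_add, add_lie, map_add])
      (by intro a b c; rw [map_smul, smul_lie, map_smul])
      (by intro a b c; rw [map_add, lie_add, map_add])
      (by intro a b c; rw [map_smul, lie_smul, map_smul])
  have hμ : ∀ x y, μ x y = j ⁅i x, s y⁆ := fun x y => rfl
  refine ⟨μ, i, j, ⟨hi, hj, ?_, ?_, ?_⟩, ?_⟩
  · intro x
    apply hRz
    rw [hiR, h2]
  · intro x y
    rw [map_sub, hμ, hμ, hij, hij, hiR, hiR]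
    have := hN (s x) (s y)
    rw [← this, ← lie_skew (s x) (R (s y)), map_neg]
    abel
  · intro x Y
    rw [hμ, ← sub_eq_zero, ← map_sub, ← lie_sub]
    apply hRz
    rw [hiR]
    apply key
    apply hjz
    rw [map_sub, hs', sub_self]
  · ext X
    exact (hij X).symm

end Pool.Agent.Work.MP_3d4872_al.Sr
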