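import Pool.Agent.Work.MP_3d4872_al.Sr.Core

/-!
# MP_3d4872_al: compatible brackets of small rank, the rank argument
-/

set_option autoImplicit false
set_option linter.unusedSectionVars false

namespace Pool.Agent.Work.MP_3d4872_al.Sr

open Pool.Agent.Work.MP_3d4872_al Module

section Killing

variable {L : Type*} [LieRing L] [LieAlgebra ℂ L] [FiniteDimensional ℂ L] [LieAlgebra.IsKilling ℂ L]

lemma exists_killing_eq (ℓ : L →ₗ[ℂ] ℂ) : ∃ y : L, ∀ X, killingForm ℂ L y X = ℓ X := by
  have hB := LieAlgebra.IsKilling.killingForm_nondegenerate ℂ L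
  refine ⟨((killingForm ℂ L).toDual hB).symm ℓ, fun X => ?_⟩
  rw [← LinearMap.BilinForm.toDual_def hB, LinearEquiv.apply_symm_apply]

/-- If the alternating form `κ(y, [X, Y])` vanishes on a subspace of codimension at most `c`, then
the rank of `ad y` is at most `2 c`. -/
lemma finrank_range_ad_le {y : L} {W : Submodule ℂ L} {c : ℕ}
    (hW : finrank ℂ L ≤ finrank ℂ W + c)
    (h : ∀ X ∈ W, ∀ Y ∈ W, killingForm ℂ L y ⁅X, Y⁆ = 0) :
    finrank ℂ (LinearMap.range (LieAlgebra.ad ℂ L y : L →ₗ[ℂ] L)) ≤ 2 * c := by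
  set A : L →ₗ[ℂ] L := (LieAlgebra.ad ℂ L y : L →ₗ[ℂ] L) with hA
  set f : W →ₗ[ℂ] L := A.domRestrict W with hf
  have h1 := LinearMap.finrank_range_add_finrank_ker A
  have h2 := LinearMap.finrank_range_add_finrank_ker f
  have hB := LieAlgebra.IsKilling.killingForm_nondegenerate ℂ L
  have h3 := LinearMap.BilinForm.finrank_orthogonal hB W
  have h4 : LinearMap.range f ≤ LinearMap.BilinForm.orthogonal (killingForm ℂ L) W := by
    rintro _ ⟨X, rfl⟩
    rw [LinearMap.BilinForm.mem_orthogonal_iff]
    intro Y hY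
    have e : f X = ⁅y, (X : L)⁆ := rfl
    change killingForm ℂ L Y (f X) = 0
    rw [e, LieModule.traceForm_comm, LieModule.traceForm_apply_lie_apply]
    exact h X X.2 Y hY
  have h5 := Submodule.finrank_mono h4
  have h6 : finrank ℂ (LinearMap.ker f) ≤ finrank ℂ (LinearMap.ker A) := by
    refine LinearMap.finrank_le_finrank_of_injective
      (f := (W.subtype.comp (LinearMap.ker f).subtype).codRestrict
          (LinearMap.ker A) (fun x => x.2)) ?_
    intro a b hab
    have := congrArg (fun z : LinearMap.ker A => (z : L)) hab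
    exact Subtype.ext (Subtype.ext this)
  omega

/-- The structure theorem: if all nonzero elements have large orbits, an operator of rank at most `m`
whose bracket is a Lie bracket is a square-zero Nijenhuis operator. -/
theorem nijenhuis_of_jacobi {m : ℕ}
    (hL : ∀ y : L, y ≠ 0 →
      4 * m < finrank ℂ (LinearMap.range (LieAlgebra.ad ℂ L y : L →ₗ[ℂ] L)))
    {R : L →ₗ[ℂ] L} (hR : finrank ℂ (LinearMap.range R) ≤ m)
    (hJ : ∀ X Y Z, opBracket R X (opBracket R Y Z) + opBracket R Y (opBracket R Z X)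
      + opBracket R Z (opBracket R X Y) = 0) :
    (∀ X, R (R X) = 0) ∧ ∀ X Y, R ⁅R X, Y⁆ + R ⁅X, R Y⁆ = ⁅R X, R Y⁆ := by
  have hw : ∀ X Y Z, (wc R X ⁅Y, Z⁆ + ⁅X, wc R Y Z⁆) + (wc R Y ⁅Z, X⁆ + ⁅Y, wc R Z X⁆)
      + (wc R Z ⁅X, Y⁆ + ⁅Z, wc R X Y⁆) = 0 := by
    intro X Y Z
    have := jacobi_op R X Y Z
    rw [hJ] at this
    exact neg_eq_zero.mp this.symm
  have hrk := LinearMap.finrank_range_add_finrank_ker R
  -- Step 1
  have step1 : ∀ W Z, R Z = 0 → mc R (R W) Z = 0 := by
    intro W Z hZ
    by_contra hne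
    obtain ⟨f, hf⟩ : ∃ f : L →ₗ[ℂ] ℂ, f (mc R (R W) Z) ≠ 0 := by
      by_contra hcon
      push Not at hcon
      exact hne ((Module.forall_dual_apply_eq_zero_iff ℂ _).mp hcon)
    -- the functional `W ↦ f (M (R W) Z)`
    let B : LinearMap.range R →ₗ[ℂ] L →ₗ[ℂ] ℂ :=
      LinearMap.mk₂ ℂ (fun x X => f (mc R (x : L) X))
        (by intro a b X; simp only [mc, Submodule.coe_add, map_add, add_lie, map_sub]; ring)
        (by intro c a X; simp only [mc, Submodule.coe_smul, map_smul, smul_lie, map_sub,
              smul_eq_mul]; ring)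
        (by intro a X Y; simp only [mc, map_add, lie_add, map_sub]; ring)
        (by intro c a X; simp only [mc, map_smul, lie_smul, map_sub, smul_eq_mul]; ring)
    have hB : ∀ x X, B x X = f (mc R (x : L) X) := fun x X => rfl
    obtain ⟨y, hy⟩ := exists_killing_eq (L := L) ((B.flip Z).comp R.rangeRestrict)
    have hy' : ∀ X, killingForm ℂ L y X = f (mc R (R X) Z) := fun X => hy X
    have hy0 : y ≠ 0 := by
      rintro rfl
      apply hf
      rw [← hy']
      simp
    -- the subspace
    let G : L →ₗ[ℂ] (LinearMap.range R) × Module.Dual ℂ (LinearMap.range R) :=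
      R.rangeRestrict.prod B.flip
    have hG := LinearMap.finrank_range_add_finrank_ker G
    have hG1 : finrank ℂ (LinearMap.range G) ≤ 2 * m := by
      refine (Submodule.finrank_le _).trans ?_
      rw [Module.finrank_prod, Subspace.dual_finrank_eq]
      omega
    have hker : ∀ X ∈ LinearMap.ker G, R X = 0 ∧ ∀ V, f (mc R (R V) X) = 0 := by
      intro X hX
      have h1 : G X = 0 := hX
      have h2 : R.rangeRestrict X = 0 := congrArg Prod.fst h1
      have h3 : B.flip X = 0 := congrArg Prod.snd h1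
      refine ⟨congrArg Subtype.val h2, fun V => ?_⟩
      exact LinearMap.congr_fun h3 (R.rangeRestrict V)
    have hrank : finrank ℂ (LinearMap.range (LieAlgebra.ad ℂ L y : L →ₗ[ℂ] L)) ≤ 2 * (2 * m) := by
      refine finrank_range_ad_le (W := LinearMap.ker G) (by omega) ?_
      intro X hX Y hY
      obtain ⟨hX0, hX1⟩ := hker X hX
      obtain ⟨hY0, hY1⟩ := hker Y hY
      rw [hy']
      have h1 := hw X Y Z
      rw [wc_ker_ker hX0 hY0, wc_ker_ker hY0 hZ, wc_ker_ker hZ hX0, lie_zero, lie_zero, lie_zero,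
        wc_left_ker hX0, wc_left_ker hY0, wc_left_ker hZ] at h1
      have h2 := congrArg f h1
      simp only [add_zero, map_add, map_neg, hX1, hY1, map_zero, neg_zero, zero_add] at h2
      exact neg_eq_zero.mp h2
    have := hL y hy0
    omega
  -- Step 2
  have step2 : ∀ W, R (R W) = 0 := by
    intro W
    by_contra hne
    have h1 := hL _ hne
    have h2 : finrank ℂ (LinearMap.range (LieAlgebra.ad ℂ L (R (R W)) : L →ₗ[ℂ] L))
        ≤ finrank ℂ (LinearMap.range R) + finrank ℂ (LinearMap.range R) := by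
      set A : L →ₗ[ℂ] L := (LieAlgebra.ad ℂ L (R (R W)) : L →ₗ[ℂ] L) with hA
      have e1 := LinearMap.finrank_range_add_finrank_ker A
      have e2 := LinearMap.finrank_range_add_finrank_ker (A.domRestrict (LinearMap.ker R))
      have e3 : LinearMap.range (A.domRestrict (LinearMap.ker R)) ≤ LinearMap.range R := by
        rintro _ ⟨X, rfl⟩
        have h := step1 W X X.2
        rw [mc, sub_eq_zero] at h
        exact ⟨_, h.symm⟩
      have e4 := Submodule.finrank_mono e3
      have e5 : finrank ℂ (LinearMap.ker (A.domRestrict (LinearMap.ker R)))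
          ≤ finrank ℂ (LinearMap.ker A) := by
        refine LinearMap.finrank_le_finrank_of_injective
          (f := ((LinearMap.ker R).subtype.comp
            (LinearMap.ker (A.domRestrict (LinearMap.ker R))).subtype).codRestrict
            (LinearMap.ker A) (fun x => x.2)) ?_
        intro a b hab
        have := congrArg (fun z : LinearMap.ker A => (z : L)) hab
        exact Subtype.ext (Subtype.ext this)
      omega
    omega
  refine ⟨step2, ?_⟩
  have step2' : ∀ W Z, R Z = 0 → R ⁅R W, Z⁆ = 0 := by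
    intro W Z hZ
    have h := step1 W Z hZ
    rw [mc, step2, zero_lie, zero_sub] at h
    exact neg_eq_zero.mp h
  -- Step 3
  have hwr : ∀ X Y, R Y = 0 → wc R X Y = 0 := by
    intro X Y hY
    simp only [wc, hY, map_zero, lie_zero, step2, zero_lie, zero_sub, sub_self, add_zero, zero_add]
    rw [step2' X Y hY, neg_zero]
  have hwl : ∀ X Y, R X = 0 → wc R X Y = 0 := by
    intro X Y hX
    rw [wc_left_ker hX, step1 Y X hX, neg_zero]
  have step3 : ∀ X Y, R X = 0 → R Y = 0 → ∀ Z, wc R Z ⁅X, Y⁆ = 0 := by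
    intro X Y hX hY Z
    have h := hw X Y Z
    rw [hwl X ⁅Y, Z⁆ hX, hwl Y ⁅Z, X⁆ hY, hwl Y Z hY, hwr Z X hX, hwl X Y hX] at h
    simpa using h
  have step4 : ∀ Z W, wc R Z W = 0 := by
    intro Z W
    by_contra hne
    obtain ⟨f, hf⟩ : ∃ f : L →ₗ[ℂ] ℂ, f (wc R Z W) ≠ 0 := by
      by_contra hcon
      push Not at hcon
      exact hne ((Module.forall_dual_apply_eq_zero_iff ℂ _).mp hcon)
    let B : L →ₗ[ℂ] ℂ :=
      { toFun := fun X => f (wc R Z X)
        map_add' := by
          intro X Y
          simp only [wc, map_add, lie_add, map_sub]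
          ring
        map_smul' := by
          intro c X
          simp only [wc, map_add, map_smul, lie_smul, map_sub, smul_eq_mul, RingHom.id_apply]
          ring }
    obtain ⟨y, hy⟩ := exists_killing_eq (L := L) B
    have hy' : ∀ X, killingForm ℂ L y X = f (wc R Z X) := fun X => hy X
    have hy0 : y ≠ 0 := by
      rintro rfl
      apply hf
      rw [← hy']
      simp
    have hrank : finrank ℂ (LinearMap.range (LieAlgebra.ad ℂ L y : L →ₗ[ℂ] L)) ≤ 2 * m := by
      refine finrank_range_ad_le (W := LinearMap.ker R) (by omega) ?_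
      intro X hX Y hY
      rw [hy', step3 X Y hX hY, map_zero]
    have := hL y hy0
    omega
  intro X Y
  have h := step4 X Y
  simp only [wc, step2, zero_lie, lie_zero, zero_sub] at h
  rw [← sub_eq_zero, ← neg_eq_zero, ← h]
  abel

end Killing

end Pool.Agent.Work.MP_3d4872_al.Sr
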