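import Pool.Agent.Work.MP_3d4872_al.SlKilling

/-!
# MP_3d4872_al: the smallest orbits of `sl N`
-/

set_option autoImplicit false
set_option linter.unusedSectionVars false

namespace Pool.Agent.Work.MP_3d4872_al.Sr

open Pool.Agent.Work.MP_3d4872_al Module Matrix LieAlgebra LieAlgebra.SpecialLinear

attribute [local instance 100] LieRing.ofAssociativeRing

section

variable {n : Type*} [Fintype n] [DecidableEq n]

/-- A matrix for which every vector is an eigenvector is scalar. -/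
lemma exists_scalar_of_eigen (y : Matrix n n ℂ)
    (h : ∀ v : n → ℂ, ∃ c : ℂ, y *ᵥ v = c • v) : ∃ c : ℂ, y = c • (1 : Matrix n n ℂ) := by
  rcases isEmpty_or_nonempty n with hn | ⟨⟨i₀⟩⟩
  · exact ⟨0, by ext i; exact (hn.false i).elim⟩
  have hd : ∀ i j, i ≠ j → y i j = 0 := by
    intro i j hij
    obtain ⟨c, hc⟩ := h (Pi.single j 1)
    have := congrFun hc i
    rw [Matrix.mulVec_single_one] at this
    simpa [Pi.single_apply, hij] using this
  have he : ∀ i j, y i i = y j j := by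
    intro i j
    by_cases hij : i = j
    · rw [hij]
    obtain ⟨c, hc⟩ := h (Pi.single i 1 + Pi.single j 1)
    have h1 := congrFun hc i
    have h2 := congrFun hc j
    rw [Matrix.mulVec_add, Matrix.mulVec_single_one, Matrix.mulVec_single_one] at h1 h2
    simp [hij, Ne.symm hij, hd i j hij, hd j i (Ne.symm hij)] at h1 h2
    rw [h1, h2]
  refine ⟨y i₀ i₀, ?_⟩
  ext i j
  by_cases hij : i = j
  · subst hij
    simp [he i i₀]
  · simp [hij, hd i j hij]

lemma mul_vecMulVec' (y : Matrix n n ℂ) (u f : n → ℂ) :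
    y * vecMulVec u f = vecMulVec (y *ᵥ u) f := by
  ext i j
  simp only [Matrix.mul_apply, vecMulVec_apply, Matrix.mulVec, dotProduct, Finset.sum_mul]
  exact Finset.sum_congr rfl fun k _ => by ring

lemma vecMulVec_mul' (y : Matrix n n ℂ) (u f : n → ℂ) :
    vecMulVec u f * y = vecMulVec u (f ᵥ* y) := by
  ext i j
  simp only [Matrix.mul_apply, vecMulVec_apply, Matrix.vecMul, dotProduct, Finset.mul_sum]
  exact Finset.sum_congr rfl fun k _ => by ring

/-- The centralizer condition for `u ⊗ f₀ + v ⊗ g` forces `u` into the span of `v` and `y v`. -/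
lemma mem_span_of_commute {y : Matrix n n ℂ} {v f₀ : n → ℂ}
    (hf : ∀ c : ℂ, f₀ ᵥ* y ≠ c • f₀) (u g : n → ℂ)
    (h : y * (vecMulVec u f₀ + vecMulVec v g) = (vecMulVec u f₀ + vecMulVec v g) * y) :
    ∃ a b : ℂ, u = a • v + b • (y *ᵥ v) := by
  -- a vector `w` with `f₀ w = 0` and `f₀ (y w) ≠ 0`
  obtain ⟨w, hw0, hw1⟩ : ∃ w : n → ℂ, f₀ ⬝ᵥ w = 0 ∧ (f₀ ᵥ* y) ⬝ᵥ w ≠ 0 := by
    by_contra hcon
    push Not at hcon
    have hf0 : f₀ ≠ 0 := by
      rintro rfl
      exact hf 0 (by simp)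
    obtain ⟨i, hi⟩ : ∃ i, f₀ i ≠ 0 := by
      by_contra hc
      push Not at hc
      exact hf0 (funext hc)
    apply hf ((f₀ ᵥ* y) i / f₀ i)
    ext j
    have h1 := hcon (f₀ i • Pi.single j 1 - f₀ j • Pi.single i 1) (by
      simp [dotProduct_sub, dotProduct_smul]
      ring)
    simp only [dotProduct_sub, dotProduct_smul, dotProduct_single, mul_one, smul_eq_mul] at h1
    rw [Pi.smul_apply, smul_eq_mul, div_mul_eq_mul_div, eq_div_iff hi]
    linear_combination h1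
  have h2 := congrArg (fun M : Matrix n n ℂ => M *ᵥ w) h
  simp only [mul_add, add_mul, mul_vecMulVec', vecMulVec_mul', Matrix.add_mulVec,
    Matrix.vecMulVec_mulVec, hw0] at h2
  simp only [op_smul_eq_smul, zero_smul, zero_add] at h2
  refine ⟨-((g ᵥ* y) ⬝ᵥ w) / ((f₀ ᵥ* y) ⬝ᵥ w), (g ⬝ᵥ w) / ((f₀ ᵥ* y) ⬝ᵥ w), ?_⟩
  have h3 : u = ((f₀ ᵥ* y) ⬝ᵥ w)⁻¹ • (((f₀ ᵥ* y) ⬝ᵥ w) • u) := by
    rw [smul_smul, inv_mul_cancel₀ hw1, one_smul]
  have h4 : ((f₀ ᵥ* y) ⬝ᵥ w) • u = (g ⬝ᵥ w) • (y *ᵥ v) - ((g ᵥ* y) ⬝ᵥ w) • v := by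
    rw [h2]
    abel
  rw [h3, h4, smul_sub, smul_smul, smul_smul, div_eq_mul_inv, div_eq_mul_inv, neg_mul, neg_smul,
    mul_comm (g ⬝ᵥ w), mul_comm ((g ᵥ* y) ⬝ᵥ w)]
  abel

lemma eq_zero_of_commute {y : Matrix n n ℂ} {v : n → ℂ} (hv : ∀ c : ℂ, y *ᵥ v ≠ c • v)
    (g : n → ℂ) (h : y * vecMulVec v g = vecMulVec v g * y) : g = 0 := by
  by_contra hg
  obtain ⟨i, hi⟩ : ∃ i, g i ≠ 0 := by
    by_contra hc
    push Not at hc
    exact hg (funext hc)
  apply hv ((g ᵥ* y) i / g i)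
  rw [mul_vecMulVec', vecMulVec_mul'] at h
  ext j
  have h1 := congrFun (congrFun h j) i
  rw [vecMulVec_apply, vecMulVec_apply] at h1
  rw [Pi.smul_apply, smul_eq_mul, div_mul_eq_mul_div, eq_div_iff hi, h1]
  ring

/-- The traceless part of a matrix. -/
noncomputable def tl (Z : Matrix n n ℂ) : sl n ℂ :=
  ⟨Z - (Z.trace / (Fintype.card n : ℂ)) • 1, by
    rw [← LieSubalgebra.mem_coe]
    change (Z - (Z.trace / (Fintype.card n : ℂ)) • (1 : Matrix n n ℂ)).trace = 0
    rw [Matrix.trace_sub, Matrix.trace_smul, Matrix.trace_one, smul_eq_mul]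
    rcases isEmpty_or_nonempty n with hn | hn
    · simp [Matrix.trace]
    · have : (Fintype.card n : ℂ) ≠ 0 := by exact_mod_cast Fintype.card_ne_zero
      field_simp
      ring⟩

lemma lie_tl (y : sl n ℂ) (Z : Matrix n n ℂ) :
    (⁅y, tl Z⁆ : sl n ℂ).val = y.val * Z - Z * y.val := by
  change ⁅y.val, Z - (Z.trace / (Fintype.card n : ℂ)) • (1 : Matrix n n ℂ)⁆ = _
  rw [LieRing.of_associative_ring_bracket]
  simp [mul_sub, sub_mul]

/-- Nonzero elements of `sl N` have orbits of dimension at least `2 (N - 1)`. -/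
theorem card_le_finrank_range_ad (y : sl n ℂ) (hy : y ≠ 0) :
    2 * Fintype.card n ≤
      finrank ℂ (LinearMap.range (LieAlgebra.ad ℂ (sl n ℂ) y : sl n ℂ →ₗ[ℂ] sl n ℂ)) + 2 := by
  have hns : ∀ c : ℂ, y.val ≠ c • (1 : Matrix n n ℂ) := by
    intro c hc
    apply hy
    have h1 : y.val.trace = 0 := y.2
    apply Subtype.ext
    rw [hc, Matrix.trace_smul, Matrix.trace_one, smul_eq_mul] at h1
    rcases mul_eq_zero.mp h1 with h2 | h2
    · rw [hc, h2, zero_smul]
      rfl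
    · have h3 : Fintype.card n = 0 := by exact_mod_cast h2
      rw [Fintype.card_eq_zero_iff] at h3
      ext i
      exact (h3.false i).elim
  obtain ⟨v, hv⟩ : ∃ v : n → ℂ, ∀ c : ℂ, y.val *ᵥ v ≠ c • v := by
    by_contra hcon
    push Not at hcon
    obtain ⟨c, hc⟩ := exists_scalar_of_eigen y.val hcon
    exact hns c hc
  obtain ⟨f₀, hf⟩ : ∃ f₀ : n → ℂ, ∀ c : ℂ, f₀ ᵥ* y.val ≠ c • f₀ := by
    by_contra hcon
    push Not at hcon
    obtain ⟨c, hc⟩ := exists_scalar_of_eigen (y.val)ᵀ (fun v => by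
      obtain ⟨c, hc⟩ := hcon v
      exact ⟨c, by rw [Matrix.mulVec_transpose, hc]⟩)
    apply hns c
    rw [← Matrix.transpose_transpose y.val, hc, Matrix.transpose_smul, Matrix.transpose_one]
  let Φ : ((n → ℂ) × (n → ℂ)) →ₗ[ℂ] sl n ℂ :=
    { toFun := fun p => ⁅y, tl (vecMulVec p.1 f₀ + vecMulVec v p.2)⁆
      map_add' := by
        intro p q
        apply Subtype.ext
        change (⁅y, tl _⁆ : sl n ℂ).val = (⁅y, tl _⁆ : sl n ℂ).val + (⁅y, tl _⁆ : sl n ℂ).val
        rw [lie_tl, lie_tl, lie_tl]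
        simp only [Prod.fst_add, Prod.snd_add, Matrix.add_vecMulVec, Matrix.vecMulVec_add, mul_add,
          add_mul]
        abel
      map_smul' := by
        intro c p
        apply Subtype.ext
        change (⁅y, tl _⁆ : sl n ℂ).val = c • (⁅y, tl _⁆ : sl n ℂ).val
        rw [lie_tl, lie_tl]
        simp only [Prod.smul_fst, Prod.smul_snd, Matrix.smul_vecMulVec, Matrix.vecMulVec_smul,
          mul_add, add_mul, Matrix.mul_smul, Matrix.smul_mul, smul_sub, smul_add] }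
  have hΦ : ∀ p : (n → ℂ) × (n → ℂ),
      Φ p = ⁅y, tl (vecMulVec p.1 f₀ + vecMulVec v p.2)⁆ := fun p => rfl
  have hker : ∀ p : (n → ℂ) × (n → ℂ), Φ p = 0 →
      y.val * (vecMulVec p.1 f₀ + vecMulVec v p.2)
        = (vecMulVec p.1 f₀ + vecMulVec v p.2) * y.val := by
    intro p hp
    have h1 := congrArg (fun z : sl n ℂ => z.val) hp
    simp only [hΦ, lie_tl] at h1
    exact sub_eq_zero.mp h1
  have h1 := LinearMap.finrank_range_add_finrank_ker Φ
  have h2 : finrank ℂ (LinearMap.range Φ) ≤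
      finrank ℂ (LinearMap.range (LieAlgebra.ad ℂ (sl n ℂ) y : sl n ℂ →ₗ[ℂ] sl n ℂ)) := by
    apply Submodule.finrank_mono
    rintro _ ⟨p, rfl⟩
    exact ⟨tl (vecMulVec p.1 f₀ + vecMulVec v p.2), rfl⟩
  have h3 : finrank ℂ (LinearMap.ker Φ) ≤ 2 := by
    set T : (LinearMap.ker Φ) →ₗ[ℂ] (n → ℂ) :=
      (LinearMap.fst ℂ (n → ℂ) (n → ℂ)).comp (LinearMap.ker Φ).subtype with hT
    have hTinj : Function.Injective T := by
      rw [injective_iff_map_eq_zero]
      intro p hp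
      have e1 : p.val.1 = 0 := hp
      have e2 := hker p.val p.2
      rw [e1] at e2
      simp only [Matrix.zero_vecMulVec, zero_add] at e2
      have e3 := eq_zero_of_commute hv _ e2
      exact Subtype.ext (Prod.ext e1 e3)
    have h4 := LinearMap.finrank_range_of_inj hTinj
    rw [← h4]
    have h5 : LinearMap.range T ≤ Submodule.span ℂ ({v, y.val *ᵥ v} : Set (n → ℂ)) := by
      rintro _ ⟨p, rfl⟩
      obtain ⟨a, b, hab⟩ := mem_span_of_commute hf _ _ (hker p.val p.2)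
      rw [Submodule.mem_span_pair]
      exact ⟨a, b, hab.symm⟩
    refine (Submodule.finrank_mono h5).trans ?_
    have h6 := finrank_span_finset_le_card (R := ℂ) ({v, y.val *ᵥ v} : Finset (n → ℂ))
    have h7 := Finset.card_le_two (a := v) (b := y.val *ᵥ v)
    simp only [Finset.coe_insert, Finset.coe_singleton] at h6
    exact h6.trans h7
  have h8 : finrank ℂ ((n → ℂ) × (n → ℂ)) = 2 * Fintype.card n := by
    rw [Module.finrank_prod, Module.finrank_fintype_fun_eq_card]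
    ring
  omega

end

end Pool.Agent.Work.MP_3d4872_al.Sr
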