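import Pool.Agent.Work.MP_3d4872_al.Sr.SrDefs
import Pool.Agent.Work.MP_3d4872_al.Family

/-!
# MP_3d4872_al: every pre-Lie algebra is realized in `sl N`
-/

set_option autoImplicit false
set_option linter.unusedSectionVars false

namespace Pool.Agent.Work.MP_3d4872_al.Sr

open Pool.Agent.Work.MP_3d4872_al Module Matrix LieAlgebra LieAlgebra.SpecialLinear

attribute [local instance 100] LieRing.ofAssociativeRing

/-- An index set with `2 m + 3 + r` elements. -/
abbrev Ix (m r : ℕ) : Type := (Fin m ⊕ Unit) ⊕ ((Fin m ⊕ Unit) ⊕ (Unit ⊕ Fin r))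

variable {m r : ℕ}

/-- The matrix of the left multiplication by `x`. -/
noncomputable def lm (μ : Prod' m) (x : Fin m → ℂ) : Matrix (Fin m) (Fin m) ℂ :=
  LinearMap.toMatrix' (μ x)

lemma lm_mulVec (μ : Prod' m) (x y : Fin m → ℂ) : lm μ x *ᵥ y = μ x y := by
  rw [lm, ← Matrix.toLin'_apply, Matrix.toLin'_toMatrix']

lemma lm_add (μ : Prod' m) (x y : Fin m → ℂ) : lm μ (x + y) = lm μ x + lm μ y := by
  rw [lm, lm, lm, map_add, map_add]

lemma lm_smul (μ : Prod' m) (c : ℂ) (x : Fin m → ℂ) : lm μ (c • x) = c • lm μ x := by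
  rw [lm, lm, map_smul, map_smul]

/-- First block: the affine action. -/
noncomputable def bA (μ : Prod' m) (x : Fin m → ℂ) : Matrix (Fin m ⊕ Unit) (Fin m ⊕ Unit) ℂ :=
  fromBlocks (lm μ x) (replicateCol Unit x) 0 0

/-- Second block: the left multiplication. -/
noncomputable def bB (μ : Prod' m) (x : Fin m → ℂ) : Matrix (Fin m ⊕ Unit) (Fin m ⊕ Unit) ℂ :=
  fromBlocks (lm μ x) 0 0 0

/-- Third block: the correction of the trace. -/
noncomputable def bC (r : ℕ) (μ : Prod' m) (x : Fin m → ℂ) :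
    Matrix (Unit ⊕ Fin r) (Unit ⊕ Fin r) ℂ :=
  fromBlocks ((-2 * (lm μ x).trace) • 1) 0 0 0

/-- The matrix attached to `x`. -/
noncomputable def bI (r : ℕ) (μ : Prod' m) (x : Fin m → ℂ) : Matrix (Ix m r) (Ix m r) ℂ :=
  fromBlocks (bA μ x) 0 0 (fromBlocks (bB μ x) 0 0 (bC r μ x))

lemma trace_fromBlocks' {a b : Type*} [Fintype a] [Fintype b] (A : Matrix a a ℂ)
    (B : Matrix a b ℂ) (C : Matrix b a ℂ) (D : Matrix b b ℂ) :
    (fromBlocks A B C D).trace = A.trace + D.trace := by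
  simp [Matrix.trace, Fintype.sum_sum_type]

lemma trace_bI (μ : Prod' m) (x : Fin m → ℂ) : (bI r μ x).trace = 0 := by
  simp only [bI, bA, bB, bC, trace_fromBlocks', Matrix.trace_zero, Matrix.trace_smul,
    Matrix.trace_one, smul_eq_mul]
  simp
  ring

/-- The embedding `i`. -/
noncomputable def iS (r : ℕ) (μ : Prod' m) : (Fin m → ℂ) →ₗ[ℂ] sl (Ix m r) ℂ where
  toFun x := ⟨bI r μ x, trace_bI μ x⟩
  map_add' x y := by
    apply Subtype.ext
    change bI r μ (x + y) = bI r μ x + bI r μ y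
    simp only [bI, bA, bB, bC, fromBlocks_add, lm_add, Matrix.replicateCol_add, add_zero,
      Matrix.trace_add, mul_add, add_smul]
  map_smul' c x := by
    apply Subtype.ext
    change bI r μ (c • x) = c • bI r μ x
    simp only [bI, bA, bB, bC, fromBlocks_smul, lm_smul, Matrix.replicateCol_smul, smul_zero,
      Matrix.trace_smul, smul_smul, smul_eq_mul]
    congr 3
    ring_nf

/-- The projection `j`. -/
def jS (m r : ℕ) : sl (Ix m r) ℂ →ₗ[ℂ] (Fin m → ℂ) where
  toFun X := fun a => X.val (Sum.inr (Sum.inl (Sum.inl a))) (Sum.inr (Sum.inl (Sum.inr ())))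
  map_add' _ _ := rfl
  map_smul' _ _ := rfl

lemma jS_apply (X : sl (Ix m r) ℂ) (a : Fin m) :
    jS m r X a = X.val (Sum.inr (Sum.inl (Sum.inl a))) (Sum.inr (Sum.inl (Sum.inr ()))) := rfl

lemma lm_comm {μ : Prod' m} (h : IsPreLie μ) (x y : Fin m → ℂ) :
    lm μ (μ x y - μ y x) = lm μ x * lm μ y - lm μ y * lm μ x := by
  have e : μ (μ x y - μ y x) = μ x ∘ₗ μ y - μ y ∘ₗ μ x := by
    apply LinearMap.ext
    intro z
    have := h x y z
    simp only [map_sub, LinearMap.sub_apply, LinearMap.comp_apply]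
    linear_combination (norm := module) this
  rw [lm, e, map_sub, LinearMap.toMatrix'_comp, LinearMap.toMatrix'_comp]
  rfl

lemma fromBlocks_sub' {a b : Type*} (A A' : Matrix a a ℂ) (B B' : Matrix a b ℂ)
    (C C' : Matrix b a ℂ) (D D' : Matrix b b ℂ) :
    fromBlocks A B C D - fromBlocks A' B' C' D'
      = fromBlocks (A - A') (B - B') (C - C') (D - D') := by
  ext (i | i) (j | j) <;> rfl

lemma mul_replicateCol' (M : Matrix (Fin m) (Fin m) ℂ) (v : Fin m → ℂ) :
    M * replicateCol Unit v = replicateCol Unit (M *ᵥ v) := by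
  ext a b
  simp [Matrix.mul_apply, Matrix.mulVec, dotProduct]

lemma bA_mul (μ : Prod' m) (x y : Fin m → ℂ) :
    bA μ x * bA μ y = fromBlocks (lm μ x * lm μ y) (replicateCol Unit (μ x y)) 0 0 := by
  rw [bA, bA, fromBlocks_multiply, mul_replicateCol', lm_mulVec]
  simp

lemma bB_mul (μ : Prod' m) (x y : Fin m → ℂ) :
    bB μ x * bB μ y = fromBlocks (lm μ x * lm μ y) 0 0 0 := by
  rw [bB, bB, fromBlocks_multiply]
  simp

lemma bC_mul (μ : Prod' m) (x y : Fin m → ℂ) :
    bC r μ x * bC r μ y = fromBlocks ((4 * (lm μ x).trace * (lm μ y).trace) • 1) 0 0 0 := by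
  rw [bC, bC, fromBlocks_multiply]
  simp only [Matrix.mul_smul, mul_one, smul_smul, Matrix.mul_zero, add_zero,
    Matrix.zero_mul, smul_zero]
  congr 2
  ring

lemma bI_comm {μ : Prod' m} (h : IsPreLie μ) (x y : Fin m → ℂ) :
    bI r μ (μ x y - μ y x) = bI r μ x * bI r μ y - bI r μ y * bI r μ x := by
  have hA : bA μ (μ x y - μ y x) = bA μ x * bA μ y - bA μ y * bA μ x := by
    have e : replicateCol Unit (μ x y - μ y x)
        = replicateCol Unit (μ x y) - replicateCol Unit (μ y x) := rfl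
    rw [bA_mul, bA_mul, bA, lm_comm h, fromBlocks_sub', e, sub_self, sub_self]
  have hB : bB μ (μ x y - μ y x) = bB μ x * bB μ y - bB μ y * bB μ x := by
    rw [bB_mul, bB_mul, bB, lm_comm h, fromBlocks_sub', sub_self, sub_self, sub_self]
  have hC : bC r μ (μ x y - μ y x) = bC r μ x * bC r μ y - bC r μ y * bC r μ x := by
    rw [bC_mul, bC_mul, bC, lm_comm h, fromBlocks_sub', Matrix.trace_sub,
      Matrix.trace_mul_comm (lm μ x)]
    simp only [sub_self, mul_zero, zero_smul]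
    rw [← sub_smul]
    have e : 4 * (lm μ x).trace * (lm μ y).trace - 4 * (lm μ y).trace * (lm μ x).trace = 0 := by
      ring
    rw [e, zero_smul]
  rw [bI, hA, hB, hC, bI, bI, fromBlocks_multiply, fromBlocks_multiply, fromBlocks_multiply,
    fromBlocks_multiply, fromBlocks_sub']
  simp [fromBlocks_sub']

/-- Entries of `j (i x) = 0` and of `j [i x, Y]`. -/
lemma jS_lie (μ : Prod' m) (x : Fin m → ℂ) (Y : sl (Ix m r) ℂ) :
    jS m r ⁅iS r μ x, Y⁆ = μ x (jS m r Y) := by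
  ext a
  rw [jS_apply]
  change (bI r μ x * Y.val - Y.val * bI r μ x) _ _ = _
  rw [← lm_mulVec]
  simp only [bI, bA, bB, bC, Matrix.sub_apply, Matrix.mul_apply, Fintype.sum_sum_type,
    fromBlocks_apply₁₁, fromBlocks_apply₁₂, fromBlocks_apply₂₁, fromBlocks_apply₂₂,
    Matrix.zero_apply, zero_mul, mul_zero, Finset.sum_const_zero, zero_add, add_zero, sub_zero,
    Matrix.mulVec, dotProduct, jS_apply]

/-- A nilpotent matrix with given value of `j`. -/
def nM (r : ℕ) (z : Fin m → ℂ) : Matrix (Ix m r) (Ix m r) ℂ :=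
  fromBlocks (0 : Matrix (Fin m ⊕ Unit) (Fin m ⊕ Unit) ℂ) 0 0
    (fromBlocks (fromBlocks (0 : Matrix (Fin m) (Fin m) ℂ) (replicateCol Unit z) 0
      (0 : Matrix Unit Unit ℂ)) 0 0 (0 : Matrix (Unit ⊕ Fin r) (Unit ⊕ Fin r) ℂ))

/-- The corresponding element of the Lie algebra. -/
def nS (r : ℕ) (z : Fin m → ℂ) : sl (Ix m r) ℂ :=
  ⟨nM r z, by
    change (nM r z).trace = 0
    simp [nM, trace_fromBlocks']⟩

lemma iS_realization {μ : Prod' m} (h : IsPreLie μ) (r : ℕ) :
    Realization μ (iS r μ) (jS m r) where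
  inj := by
    intro x y hxy
    ext a
    have e : bI r μ x = bI r μ y := congrArg Subtype.val hxy
    have e2 := congrFun (congrFun e (Sum.inl (Sum.inl a))) (Sum.inl (Sum.inr ()))
    simpa [bI, bA] using e2
  surj := by
    intro z
    refine ⟨nS r z, ?_⟩
    ext a
    rw [jS_apply, nS]
    simp [nM]
  zero := by
    intro x
    ext a
    rw [jS_apply]
    change bI r μ x _ _ = 0
    simp [bI, bB]
  lie := by
    intro x y
    apply Subtype.ext
    exact bI_comm h x y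
  mod := jS_lie μ

section Nat

variable {μ μ' : Prod' m}

/-- The block diagonal matrix of a change of coordinates. -/
noncomputable def bG (r : ℕ) (P : Matrix (Fin m) (Fin m) ℂ) : Matrix (Ix m r) (Ix m r) ℂ :=
  fromBlocks (fromBlocks P 0 0 1) 0 0 (fromBlocks (fromBlocks P 0 0 1) 0 0 1)

lemma bG_mul {P Q : Matrix (Fin m) (Fin m) ℂ} (h : P * Q = 1) : bG r P * bG r Q = 1 := by
  simp [bG, fromBlocks_multiply, h]

lemma bG_bI (P Q : Matrix (Fin m) (Fin m) ℂ) (hQP : Q * P = 1) (x : Fin m → ℂ)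
    (hx : P * lm μ x * Q = lm μ' (P *ᵥ x)) :
    bG r P * bI r μ x * bG r Q = bI r μ' (P *ᵥ x) := by
  have ht : (lm μ' (P *ᵥ x)).trace = (lm μ x).trace := by
    rw [← hx, Matrix.trace_mul_comm, ← mul_assoc, hQP, one_mul]
  have hA : fromBlocks P 0 0 (1 : Matrix Unit Unit ℂ) * bA μ x
      * fromBlocks Q 0 0 (1 : Matrix Unit Unit ℂ) = bA μ' (P *ᵥ x) := by
    rw [bA, bA, fromBlocks_multiply, fromBlocks_multiply, mul_replicateCol']
    simp [hx]
  have hB : fromBlocks P 0 0 (1 : Matrix Unit Unit ℂ) * bB μ x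
      * fromBlocks Q 0 0 (1 : Matrix Unit Unit ℂ) = bB μ' (P *ᵥ x) := by
    rw [bB, bB, fromBlocks_multiply, fromBlocks_multiply]
    simp [hx]
  have hC : bC r μ' (P *ᵥ x) = bC r μ x := by
    rw [bC, bC, ht]
  have h1 : bG r P * bI r μ x = fromBlocks (fromBlocks P 0 0 (1 : Matrix Unit Unit ℂ) * bA μ x) 0 0
      (fromBlocks (fromBlocks P 0 0 (1 : Matrix Unit Unit ℂ) * bB μ x) 0 0 (bC r μ x)) := by
    rw [bG, bI, fromBlocks_multiply, fromBlocks_multiply]
    simp only [Matrix.mul_zero, Matrix.zero_mul, add_zero, zero_add, Matrix.one_mul]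
  rw [h1, bG, fromBlocks_multiply, fromBlocks_multiply]
  simp only [Matrix.mul_zero, Matrix.zero_mul, add_zero, zero_add, Matrix.mul_one]
  rw [hA, hB, ← hC, bI]

/-- Isomorphic products have conjugate realizations. -/
theorem exists_conj (T : (Fin m → ℂ) ≃ₗ[ℂ] (Fin m → ℂ))
    (hT : ∀ x y, T (μ x y) = μ' (T x) (T y)) (r : ℕ) :
    ∃ φ : sl (Ix m r) ℂ ≃ₗ⁅ℂ⁆ sl (Ix m r) ℂ, (∀ x, φ (iS r μ' (T x)) = iS r μ x) ∧
      ∀ X, jS m r X = T (jS m r (φ X)) := by
  set P : Matrix (Fin m) (Fin m) ℂ := LinearMap.toMatrix' (T : (Fin m → ℂ) →ₗ[ℂ] (Fin m → ℂ))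
    with hP
  set Q : Matrix (Fin m) (Fin m) ℂ :=
    LinearMap.toMatrix' (T.symm : (Fin m → ℂ) →ₗ[ℂ] (Fin m → ℂ)) with hQ
  have hPQ : P * Q = 1 := by
    rw [hP, hQ, ← LinearMap.toMatrix'_comp, LinearEquiv.comp_symm, LinearMap.toMatrix'_id]
  have hQP : Q * P = 1 := by
    rw [hP, hQ, ← LinearMap.toMatrix'_comp, LinearEquiv.symm_comp, LinearMap.toMatrix'_id]
  have hPv : ∀ v, P *ᵥ v = T v := by
    intro v
    rw [hP, ← Matrix.toLin'_apply, Matrix.toLin'_toMatrix']
    rfl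
  have hx : ∀ x, P * lm μ x * Q = lm μ' (P *ᵥ x) := by
    intro x
    rw [hPv, lm, lm, hP, hQ, ← LinearMap.toMatrix'_comp, ← LinearMap.toMatrix'_comp]
    congr 1
    apply LinearMap.ext
    intro z
    change T (μ x (T.symm z)) = μ' (T x) z
    rw [hT, LinearEquiv.apply_symm_apply]
  have h1 : bG r P * bG r Q = 1 := bG_mul hPQ
  have h2 : bG r Q * bG r P = 1 := bG_mul hQP
  refine ⟨conjSl (bG r Q) (bG r P) h2 h1, fun x => ?_, fun X => ?_⟩
  · apply Subtype.ext
    rw [conjSl_apply]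
    change bG r Q * bI r μ' (T x) * bG r P = bI r μ x
    rw [← hPv, ← bG_bI P Q hQP x (hx x)]
    calc bG r Q * (bG r P * bI r μ x * bG r Q) * bG r P
        = (bG r Q * bG r P) * bI r μ x * (bG r Q * bG r P) := by noncomm_ring
      _ = bI r μ x := by rw [h2, one_mul, mul_one]
  · have e : jS m r (conjSl (bG r Q) (bG r P) h2 h1 X) = Q *ᵥ jS m r X := by
      ext a
      rw [jS_apply, conjSl_apply]
      simp [bG, Matrix.mul_apply, Fintype.sum_sum_type, Matrix.mulVec, dotProduct, jS_apply]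
    rw [e, ← hPv, Matrix.mulVec_mulVec, hPQ, Matrix.one_mulVec]

end Nat

end Pool.Agent.Work.MP_3d4872_al.Sr
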