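import Pool.Agent.Work.MP_3d4872_al.Sr.PreLie

/-!
# MP_3d4872_al: the structure theorem for compatible brackets of small rank
-/

set_option autoImplicit false
set_option linter.unusedSectionVars false

namespace Pool.Agent.Work.MP_3d4872_al.Sr

open Pool.Agent.Work.MP_3d4872_al Module

variable {L : Type*} [LieRing L] [LieAlgebra ℂ L]

lemma op_self (R : L →ₗ[ℂ] L) (X : L) : opBracket R X X = 0 := by
  rw [opBracket_apply, lie_self, map_zero, ← lie_skew (R X) X]
  abel

/-- The bracket of an operator is a cocycle. -/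
lemma op_cocycle (R : L →ₗ[ℂ] L) (X Y Z : L) :
    (⁅X, opBracket R Y Z⁆ + opBracket R X ⁅Y, Z⁆) + (⁅Y, opBracket R Z X⁆ + opBracket R Y ⁅Z, X⁆)
      + (⁅Z, opBracket R X Y⁆ + opBracket R Z ⁅X, Y⁆) = 0 := by
  have j1 := lie_jacobi (R X) Y Z
  have j2 := lie_jacobi X (R Y) Z
  have j3 := lie_jacobi X Y (R Z)
  have k1 := congrArg R (lie_jacobi X Y Z)
  simp only [map_add, map_zero] at k1
  simp only [opBracket_apply, lie_add, lie_sub]
  linear_combination (norm := abel) j1 + j2 + j3 - k1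

/-- Adding a multiple of the given bracket does not change the Jacobi identity. -/
lemma jacobi_shift (c : ℂ) (R : L →ₗ[ℂ] L) (X Y Z : L) :
    (c • ownBracket L + opBracket R) X ((c • ownBracket L + opBracket R) Y Z)
      + (c • ownBracket L + opBracket R) Y ((c • ownBracket L + opBracket R) Z X)
      + (c • ownBracket L + opBracket R) Z ((c • ownBracket L + opBracket R) X Y)
    = opBracket R X (opBracket R Y Z) + opBracket R Y (opBracket R Z X)
      + opBracket R Z (opBracket R X Y) := by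
  have h1 := lie_jacobi X Y Z
  have h2 := op_cocycle R X Y Z
  simp only [LinearMap.add_apply, LinearMap.smul_apply, ownBracket_apply, map_add, map_smul,
    smul_add, smul_smul]
  linear_combination (norm := module) (c * c) • h1 + c • h2

lemma isLieBr_shift (c : ℂ) (R : L →ₗ[ℂ] L) :
    IsLieBr (c • ownBracket L + opBracket R) ↔
      ∀ X Y Z, opBracket R X (opBracket R Y Z) + opBracket R Y (opBracket R Z X)
        + opBracket R Z (opBracket R X Y) = 0 := by
  constructor
  · intro h X Y Z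
    rw [← jacobi_shift c]
    exact h.2 X Y Z
  · intro h
    refine ⟨fun X => ?_, fun X Y Z => ?_⟩
    · rw [LinearMap.add_apply, LinearMap.add_apply, op_self]
      simp
    · rw [jacobi_shift, h]

lemma compatible_shift (c : ℂ) (R : L →ₗ[ℂ] L) :
    Compatible (c • ownBracket L + opBracket R) ↔
      ∀ X Y Z, opBracket R X (opBracket R Y Z) + opBracket R Y (opBracket R Z X)
        + opBracket R Z (opBracket R X Y) = 0 := by
  constructor
  · intro h
    exact (isLieBr_shift c R).mp h.1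
  · intro h
    refine ⟨(isLieBr_shift c R).mpr h, fun a => ?_⟩
    have e : ownBracket L + a • (c • ownBracket L + opBracket R)
        = (1 + a * c) • ownBracket L + opBracket (a • R) := by
      ext X Y
      simp only [LinearMap.add_apply, LinearMap.smul_apply, ownBracket_apply, opBracket_apply,
        smul_lie, lie_smul]
      module
    rw [e, isLieBr_shift]
    intro X Y Z
    have e2 : ∀ A B, opBracket (a • R) A B = a • opBracket R A B := by
      intro A B
      simp only [LinearMap.smul_apply, opBracket_apply, smul_lie, lie_smul]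
      module
    simp only [e2, map_smul, ← smul_add, h, smul_zero]

variable [FiniteDimensional ℂ L] [LieAlgebra.IsKilling ℂ L]

theorem structure_iff {m : ℕ} (hL : ∀ y : L, y ≠ 0 → 4 * m < orbitDim y) (c : ℂ)
    {R : L →ₗ[ℂ] L} (hR : rk R ≤ m) :
    (IsLieBr (c • ownBracket L + opBracket R) ↔
      (∀ X, R (R X) = 0) ∧ ∀ X Y, R ⁅R X, Y⁆ + R ⁅X, R Y⁆ = ⁅R X, R Y⁆) ∧
    (Compatible (c • ownBracket L + opBracket R) ↔
      (∀ X, R (R X) = 0) ∧ ∀ X Y, R ⁅R X, Y⁆ + R ⁅X, R Y⁆ = ⁅R X, R Y⁆) := by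
  rw [isLieBr_shift, compatible_shift, and_self]
  constructor
  · intro h
    exact nijenhuis_of_jacobi hL hR h
  · rintro ⟨h2, hN⟩
    exact (compatible_of_nijenhuis h2 hN).1.2

/-- The operator and the scalar are determined by the bracket. -/
theorem shift_injective [Nontrivial L] {m : ℕ} (hL : ∀ y : L, y ≠ 0 → 4 * m < orbitDim y)
    {c c' : ℂ} {R R' : L →ₗ[ℂ] L} (hR : rk R ≤ m) (hR' : rk R' ≤ m)
    (h : c • ownBracket L + opBracket R = c' • ownBracket L + opBracket R') :
    c = c' ∧ R = R' := by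
  have hc : c = c' := by
    by_contra hne
    set D : L →ₗ[ℂ] L := (c - c') • LinearMap.id + (R - R') with hD
    have hD' : ∀ X, D X = (c - c') • X + (R X - R' X) := fun X => rfl
    have hder : ∀ X Y, D ⁅X, Y⁆ = ⁅D X, Y⁆ + ⁅X, D Y⁆ := by
      intro X Y
      have e := LinearMap.congr_fun (LinearMap.congr_fun h X) Y
      simp only [LinearMap.add_apply, LinearMap.smul_apply, ownBracket_apply,
        opBracket_apply] at e
      simp only [hD', add_lie, lie_add, sub_lie, lie_sub, smul_lie, lie_smul]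
      linear_combination (norm := module) - e
    obtain ⟨z, hz⟩ := exists_ad_eq D hder
    set U : Submodule ℂ L := LinearMap.ker (R - R') with hU
    have hUz : ∀ X ∈ U, ⁅z, X⁆ = (c - c') • X := by
      intro X hX
      have e : R X - R' X = 0 := hX
      rw [← hz, hD', e, add_zero]
    have hiso : ∀ X ∈ U, ∀ Y ∈ U, killingForm ℂ L X Y = 0 := by
      intro X hX Y hY
      have e1 : killingForm ℂ L ⁅z, X⁆ Y = - killingForm ℂ L X ⁅z, Y⁆ := by
        rw [← lie_skew, map_neg, LinearMap.neg_apply, LieModule.traceForm_apply_lie_apply]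
      rw [hUz X hX, hUz Y hY, map_smul, map_smul, LinearMap.smul_apply, smul_eq_mul] at e1
      have e2 : (c - c') * killingForm ℂ L X Y = 0 := by
        linear_combination (1 / 2) * e1
      exact (mul_eq_zero.mp e2).resolve_left (sub_ne_zero.mpr hne)
    have hB := LieAlgebra.IsKilling.killingForm_nondegenerate ℂ L
    have h3 := LinearMap.BilinForm.finrank_orthogonal hB U
    have h4 : U ≤ LinearMap.BilinForm.orthogonal (killingForm ℂ L) U := by
      intro X hX
      rw [LinearMap.BilinForm.mem_orthogonal_iff]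
      intro Y hY
      exact hiso Y hY X hX
    have h5 := Submodule.finrank_mono h4
    have h6 := LinearMap.finrank_range_add_finrank_ker (R - R')
    rw [← hU] at h6
    have h7 : LinearMap.range (R - R') ≤ LinearMap.range R ⊔ LinearMap.range R' := by
      rintro _ ⟨X, rfl⟩
      rw [Submodule.mem_sup]
      refine ⟨R X, ⟨X, rfl⟩, R' (-X), ⟨-X, rfl⟩, ?_⟩
      rw [map_neg]
      exact (sub_eq_add_neg _ _).symm
    have h8 := (Submodule.finrank_mono h7).trans
      (Submodule.finrank_add_le_finrank_add_finrank _ _)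
    obtain ⟨y, hy⟩ := exists_ne (0 : L)
    have h9 := hL y hy
    have h10 : orbitDim y ≤ finrank ℂ L := Submodule.finrank_le _
    have h11 := Submodule.finrank_le U
    unfold rk at hR hR'
    omega
  refine ⟨hc, ?_⟩
  subst hc
  exact opBracket_injective hL hR hR' (add_left_cancel h)

lemma rk_conj (R : L →ₗ[ℂ] L) (φ : L ≃ₗ⁅ℂ⁆ L) :
    rk ((φ.symm : L →ₗ[ℂ] L) ∘ₗ R ∘ₗ (φ : L →ₗ[ℂ] L)) ≤ rk R := by
  unfold rk
  rw [LinearMap.range_comp]
  refine (Submodule.finrank_map_le _ _).trans ?_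
  exact Submodule.finrank_mono (LinearMap.range_comp_le_range _ _)

/-- Equivalence of brackets of small rank. -/
theorem equivalent_shift_iff [Nontrivial L] {m : ℕ}
    (hL : ∀ y : L, y ≠ 0 → 4 * m < orbitDim y)
    {c c' : ℂ} {R R' : L →ₗ[ℂ] L} (hR : rk R ≤ m) (hR' : rk R' ≤ m) :
    Equivalent (c • ownBracket L + opBracket R) (c' • ownBracket L + opBracket R') ↔
      c' = c ∧ ∃ φ : L ≃ₗ⁅ℂ⁆ L, ∀ X, R' X = φ.symm (R (φ X)) := by
  have key : ∀ (φ : L ≃ₗ⁅ℂ⁆ L) (X Y : L), φ.symm ((c • ownBracket L + opBracket R) (φ X) (φ Y))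
      = (c • ownBracket L + opBracket ((φ.symm : L →ₗ[ℂ] L) ∘ₗ R ∘ₗ (φ : L →ₗ[ℂ] L))) X Y := by
    intro φ X Y
    have e1 : ∀ X, ((φ.symm : L →ₗ[ℂ] L) ∘ₗ R ∘ₗ (φ : L →ₗ[ℂ] L)) X = φ.symm (R (φ X)) :=
      fun X => rfl
    simp only [LinearMap.add_apply, LinearMap.smul_apply, ownBracket_apply, opBracket_apply, e1]
    rw [map_add, map_smul, map_sub, map_add, LieEquiv.map_lie, LieEquiv.map_lie,
      LieEquiv.map_lie, LieEquiv.symm_apply_apply, LieEquiv.symm_apply_apply, LieEquiv.map_lie]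
  constructor
  · rintro ⟨φ, h⟩
    have e : c' • ownBracket L + opBracket R'
        = c • ownBracket L + opBracket ((φ.symm : L →ₗ[ℂ] L) ∘ₗ R ∘ₗ (φ : L →ₗ[ℂ] L)) := by
      ext X Y
      rw [h, key]
    obtain ⟨h1, h2⟩ := shift_injective hL hR' ((rk_conj R φ).trans hR) e
    exact ⟨h1, φ, fun X => by rw [h2]; rfl⟩
  · rintro ⟨rfl, φ, h⟩
    refine ⟨φ, fun X Y => ?_⟩
    rw [key]
    have e : R' = (φ.symm : L →ₗ[ℂ] L) ∘ₗ R ∘ₗ (φ : L →ₗ[ℂ] L) := by
      ext X
      exact h X
    rw [e]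

/-- Equivalence in terms of realizations. -/
theorem equivalent_realization_iff [Nontrivial L] {m : ℕ}
    (hL : ∀ y : L, y ≠ 0 → 4 * m < orbitDim y)
    {N N' : Type*} [AddCommGroup N] [Module ℂ N] [AddCommGroup N'] [Module ℂ N']
    {μ : N →ₗ[ℂ] N →ₗ[ℂ] N} {μ' : N' →ₗ[ℂ] N' →ₗ[ℂ] N'}
    {i : N →ₗ[ℂ] L} {j : L →ₗ[ℂ] N} {i' : N' →ₗ[ℂ] L} {j' : L →ₗ[ℂ] N'}
    (h : Realization μ i j) (h' : Realization μ' i' j') (hN : finrank ℂ N ≤ m)
    (hN' : finrank ℂ N' ≤ m) {c c' : ℂ} :
    Equivalent (c • ownBracket L + opBracket (i ∘ₗ j)) (c' • ownBracket L + opBracket (i' ∘ₗ j')) ↔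
      c' = c ∧ ∃ (φ : L ≃ₗ⁅ℂ⁆ L) (T : N ≃ₗ[ℂ] N'), (∀ x y, T (μ x y) = μ' (T x) (T y)) ∧
        (∀ x, φ (i' (T x)) = i x) ∧ ∀ X, j' X = T (j (φ X)) := by
  rw [equivalent_shift_iff hL (h.rk_eq.trans_le hN) (h'.rk_eq.trans_le hN')]
  refine and_congr_right fun _ => ⟨?_, ?_⟩
  · rintro ⟨φ, hφ⟩
    obtain ⟨T, hT1, hT2, hT3⟩ := (h.transport φ).unique h' (fun X => (hφ X).symm)
    refine ⟨φ, T, hT1, fun x => ?_, hT3⟩
    rw [hT2]
    change φ (φ.symm (i x)) = i x
    rw [LieEquiv.apply_symm_apply]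
  · rintro ⟨φ, T, hT1, hT2, hT3⟩
    refine ⟨φ, fun X => ?_⟩
    rw [LinearMap.comp_apply, LinearMap.comp_apply, hT3, ← hT2, LieEquiv.symm_apply_apply]

end Pool.Agent.Work.MP_3d4872_al.Sr
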