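import Pool.Agent.Work.MP_3d4872_al.Sr.Rank

/-!
# MP_3d4872_al: compatible brackets of small rank, uniqueness of the operator
-/

set_option autoImplicit false
set_option linter.unusedSectionVars false

namespace Pool.Agent.Work.MP_3d4872_al.Sr

open Pool.Agent.Work.MP_3d4872_al Module

variable {L : Type*} [LieRing L] [LieAlgebra ℂ L]

lemma jacobi_of_compatible {β : L →ₗ[ℂ] L →ₗ[ℂ] L} (h : Compatible β) : IsLieBr β := h.1

variable [FiniteDimensional ℂ L] [LieAlgebra.IsKilling ℂ L]

lemma exists_ad_eq (D : L →ₗ[ℂ] L) (hD : ∀ X Y, D ⁅X, Y⁆ = ⁅D X, Y⁆ + ⁅X, D Y⁆) :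
    ∃ z : L, ∀ X, D X = ⁅z, X⁆ := by
  let D' : LieDerivation ℂ L L :=
    { toLinearMap := D
      leibniz' := by
        intro a b
        rw [hD, ← lie_skew (D a) b]
        abel }
  have h : D' ∈ (LieDerivation.ad ℂ L).range := by
    rw [LieDerivation.IsKilling.range_ad_eq_top]
    exact LieSubalgebra.mem_top _
  obtain ⟨z, hz⟩ := h
  refine ⟨z, fun X => ?_⟩
  have e := congrArg (fun E : LieDerivation ℂ L L => E X) hz
  have e' : (LieDerivation.ad ℂ L z) X = D X := e
  rw [← e', LieDerivation.ad_apply_apply]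

/-- If all nonzero elements have large orbits, an operator of small rank is determined by its
bracket. -/
theorem opBracket_injective {m : ℕ}
    (hL : ∀ y : L, y ≠ 0 →
      4 * m < finrank ℂ (LinearMap.range (LieAlgebra.ad ℂ L y : L →ₗ[ℂ] L)))
    {R R' : L →ₗ[ℂ] L} (hR : finrank ℂ (LinearMap.range R) ≤ m)
    (hR' : finrank ℂ (LinearMap.range R') ≤ m) (h : opBracket R = opBracket R') : R = R' := by
  have hD : ∀ X Y, (R - R') ⁅X, Y⁆ = ⁅(R - R') X, Y⁆ + ⁅X, (R - R') Y⁆ := by
    intro X Y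
    have e : opBracket R X Y = opBracket R' X Y := by rw [h]
    rw [opBracket_apply, opBracket_apply] at e
    simp only [LinearMap.sub_apply, sub_lie, lie_sub]
    linear_combination (norm := module) - e
  obtain ⟨z, hz⟩ := exists_ad_eq (R - R') hD
  have hz0 : z = 0 := by
    by_contra hne
    have h1 := hL z hne
    have h2 : LinearMap.range (LieAlgebra.ad ℂ L z : L →ₗ[ℂ] L)
        ≤ LinearMap.range R ⊔ LinearMap.range R' := by
      rintro _ ⟨X, rfl⟩
      rw [Submodule.mem_sup]
      refine ⟨R X, ⟨X, rfl⟩, R' (-X), ⟨-X, rfl⟩, ?_⟩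
      rw [map_neg]
      exact (sub_eq_add_neg _ _).symm.trans (hz X)
    have h3 := (Submodule.finrank_mono h2).trans
      (Submodule.finrank_add_le_finrank_add_finrank _ _)
    omega
  ext X
  have := hz X
  rw [hz0, zero_lie, LinearMap.sub_apply, sub_eq_zero] at this
  exact this

/-- Equivalence of brackets of small rank is conjugacy of the operators. -/
theorem equivalent_iff_conj {m : ℕ}
    (hL : ∀ y : L, y ≠ 0 →
      4 * m < finrank ℂ (LinearMap.range (LieAlgebra.ad ℂ L y : L →ₗ[ℂ] L)))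
    {R R' : L →ₗ[ℂ] L} (hR : finrank ℂ (LinearMap.range R) ≤ m)
    (hR' : finrank ℂ (LinearMap.range R') ≤ m) :
    Equivalent (opBracket R) (opBracket R') ↔
      ∃ φ : L ≃ₗ⁅ℂ⁆ L, ∀ X, R' X = φ.symm (R (φ X)) := by
  constructor
  · rintro ⟨φ, h⟩
    refine ⟨φ, ?_⟩
    set R'' : L →ₗ[ℂ] L := (φ.symm : L →ₗ[ℂ] L) ∘ₗ R ∘ₗ (φ : L →ₗ[ℂ] L) with hR''
    have e1 : ∀ X, R'' X = φ.symm (R (φ X)) := fun X => rfl
    have e2 : opBracket R' = opBracket R'' := by
      ext X Y
      rw [h, opBracket_apply, opBracket_apply, e1, e1, e1, map_sub, map_add, LieEquiv.map_lie,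
        LieEquiv.map_lie, LieEquiv.symm_apply_apply, LieEquiv.symm_apply_apply,
        LieEquiv.map_lie]
    have e3 : finrank ℂ (LinearMap.range R'') ≤ m := by
      refine le_trans ?_ hR
      rw [hR'', LinearMap.range_comp]
      refine (Submodule.finrank_map_le _ _).trans ?_
      exact Submodule.finrank_mono (LinearMap.range_comp_le_range _ _)
    have e4 := opBracket_injective hL hR' e3 e2
    intro X
    rw [e4, e1]
  · rintro ⟨φ, h⟩
    refine ⟨φ, fun X Y => ?_⟩
    rw [opBracket_apply, opBracket_apply, h, h, h, map_sub, map_add, LieEquiv.map_lie,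
        LieEquiv.map_lie, LieEquiv.map_lie, LieEquiv.symm_apply_apply,
        LieEquiv.symm_apply_apply]

end Pool.Agent.Work.MP_3d4872_al.Sr
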